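import Pool.Agent.H57.CP.BAS
import Pool.Agent.H47.RJ.COV
import Pool.Agent.H44.CP.PCH

/-!
# Module CHT: the chart

PROOF of `chart` (`PC f` is `Pool.Agent.H44.CP.PC f`, the closure of the forward orbits of the critical points). `f = Rf v0`. An attracting cycle: `Att f z` gives a sink `p`, `trap_of_sink` (H84/BR/Trp): a trap `T`, `p ∈ interior T`. `c ∈ JS f` is not attracted (`na_js`), so
`c ∉ T`. Choose a finite point `s ∈ interior T` (nonempty open). `φ` = the Moebius map of `exists_mob s`: `φ s = ∞`, `L = Lin s`, `G` from `lin_inv`, `g = Rf (L v0)`, `g (φ x) = φ (f x)`. `c ≠ s`, so `φ c = c1` is finite. `T' = φ '' T` is a trap for `g`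
(`trap_conj`), `∞ ∈ interior T'`. `A = φ '' PC f ∪ T'`: closed (homeomorphism), forward invariant, contains the critical values and infinity and a finite point. `c1 ∉ A`: `ρ`.
`bd`: if `g^[n] x ∈ ball c1 ρ` then `x ∉ T'` (otherwise `g^[n] x ∈ T' ⊆ A`), and the complement of `T'`, a neighbourhood of `∞`, is contained in the image of a `closedBall 0 R0`.
`W`: by `exc_fin` (H47/RJ/COV) some point of the infinite set `T'` is `g^[j] z1`, `z1 ∈ ball c1 (ρ/64)`. So `g^[m] z1 ∈ interior T'` with `m = j + 1`. For `1 ≤ n < m`: `g^[n] z1 ≠ z1` (otherwise the periodic point `z1 = g^[n m] z1` would be in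
`T'`, but `T' ⊆ A` does not meet `ball c1 ρ`). By continuity there is `η > 0` with `W = ball z1 η ⊆ ball c1 (ρ/64)`, `g^[m] W ⊆ interior T'`, and `g^[n] W` disjoint from `W` for `1 ≤ n < m` (Hausdorff); for `n ≥ m` `g^[n] W ⊆ T'`, disjoint from `W`.
-/

set_option autoImplicit false

open MeasureTheory Metric Set Polynomial Filter Topology

namespace Pool.Agent.H57.CP

open Pool.Agent.H44.Fatou (rat rat_continuous crit_coe)
open Pool.Agent.H32.BT Pool.Agent.H80.AJ Pool.Agent.H61.TT Pool.Agent.H35.EX Pool.Agent.H79.Eul Pool.Agent.H79.Par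
open Pool.Agent.H44.RC Pool.Agent.H44.CP Pool.Agent.H44.ND Pool.Agent.H79.ES Pool.Agent.H84.BR
open Pool.Agent.H44.RG

private theorem cht_mob {d : ℕ} (hd : 2 ≤ d) (s : ℂ) : ∃ φ : OnePoint ℂ ≃ₜ OnePoint ℂ,
    φ (s : OnePoint ℂ) = OnePoint.infty ∧ (∀ v : E d, IsCoprime (pol v.1) (pol v.2) →
      max (pol v.1).natDegree (pol v.2).natDegree = d →
      IsCoprime (pol (Lin s v).1) (pol (Lin s v).2) ∧
      max (pol (Lin s v).1).natDegree (pol (Lin s v).2).natDegree = d ∧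
      ∀ x, Rf (Lin s v) (φ x) = φ (Rf v x)) ∧
    ∃ K : ℝ, ∀ x y, chord (φ x) (φ y) ≤ K * chord x y ∧ chord x y ≤ K * chord (φ x) (φ y) := by
  obtain ⟨φ, hφ1, hφs, hφi, hφ⟩ := exists_mob s
  obtain ⟨K, -, hK⟩ := chord_bilip hφs hφ1 hφi
  refine ⟨φ, hφs, ?_, K, hK⟩
  intro v hc he
  obtain ⟨h1, h2, h3⟩ := hφ d _ _ hc he (by omega)
  unfold Rf
  rw [chartNull_pol1, chartNull_pol2]
  exact ⟨h1, h2, h3⟩

theorem chart {d : ℕ} (hd : 2 ≤ d) {v0 : E d} (hcop : IsCoprime (pol v0.1) (pol v0.2))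
    (hdeg : max (pol v0.1).natDegree (pol v0.2).natDegree = d) (hup : ¬ Up v0)
    (hatt : ∃ z, Att (Rf v0) z) {c : OnePoint ℂ}
    (hc : IsCrit (Rf v0) c) (hJ : c ∈ JS (Rf v0)) (hP : c ∉ PC (Rf v0)) :
    ∃ (L G : E d → E d) (φ : OnePoint ℂ ≃ₜ OnePoint ℂ), Continuous G ∧ (∀ v, G (L v) = v) ∧ (∀ v, L (G v) = v) ∧
      (∀ v : E d, IsCoprime (pol v.1) (pol v.2) → max (pol v.1).natDegree (pol v.2).natDegree = d →
        ∀ x, Rf (L v) (φ x) = φ (Rf v x)) ∧
      ∃ (c1 : ℂ) (ρ R0 : ℝ) (A : Set (OnePoint ℂ)) (W : Set ℂ), φ c = (c1 : OnePoint ℂ) ∧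
        CS d (pol (L v0).1) (pol (L v0).2) c1 ρ R0 A W ∧ (c1 : OnePoint ℂ) ∈ JS (Rf (L v0)) ∧
        Att (Rf (L v0)) OnePoint.infty := by
  have hna := na_js hd hcop hdeg hup hJ
  obtain ⟨z, p, n, hs, -⟩ := hatt
  obtain ⟨T, hT, hpT⟩ := trap_of_sink hcop (by rw [hdeg]; omega) hs
  obtain ⟨s, hsT⟩ : ∃ s : ℂ, (s : OnePoint ℂ) ∈ interior T :=
    OnePoint.denseRange_coe.exists_mem_open isOpen_interior ⟨p, hpT⟩
  obtain ⟨φ, hφs, hall, K, hK⟩ := cht_mob hd s
  obtain ⟨G, hG, -, hGL, hLG⟩ := lin_inv s d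
  obtain ⟨hcop1, hdeg1, hconj⟩ := hall v0 hcop hdeg
  have hcs : c ≠ (s : OnePoint ℂ) := by
    intro h
    apply hna
    rw [h]
    exact hT.att _ (interior_subset hsT)
  obtain ⟨c1, hc1⟩ : ∃ c1 : ℂ, (c1 : OnePoint ℂ) = φ c := by
    apply OnePoint.ne_infty_iff_exists.1
    intro h
    rw [← hφs] at h
    exact hcs (φ.injective h)
  -- the objects in the chart
  obtain ⟨g, hg⟩ : ∃ g, g = Rf (Lin s v0) := ⟨_, rfl⟩
  have hgr : g = rat (pol (Lin s v0).1) (pol (Lin s v0).2) := hg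
  have hgc : Continuous g := by rw [hgr]; exact rat_continuous hcop1
  have hgφ : ∀ x, g (φ x) = φ (Rf v0 x) := by rw [hg]; exact hconj
  obtain ⟨T', hT'⟩ : ∃ T', T' = φ '' T := ⟨_, rfl⟩
  have htrap : Trap g T' := by rw [hT']; exact trap_conj φ hgφ hT
  have hTinf : OnePoint.infty ∈ interior T' := by
    rw [hT', ← φ.image_interior, ← hφs]
    exact mem_image_of_mem _ hsT
  have hTn : T' ∈ 𝓝 OnePoint.infty := mem_interior_iff_mem_nhds.1 hTinf
  have hTit : ∀ (n : ℕ) (x : OnePoint ℂ), x ∈ T' → g^[n] x ∈ T' := by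
    intro n
    induction n with
    | zero => exact fun x hx => hx
    | succ n ih =>
      intro x hx
      rw [Function.iterate_succ_apply]
      exact ih _ (interior_subset (htrap.maps x hx))
  obtain ⟨A, hA⟩ : ∃ A, A = φ '' PC (Rf v0) ∪ T' := ⟨_, rfl⟩
  have hPCc : IsClosed (PC (Rf v0)) := isClosed_closure
  have hAc : IsClosed A := by
    rw [hA]
    exact (φ.isClosed_image.2 hPCc).union htrap.closed
  have hPCinv : ∀ x ∈ PC (Rf v0), Rf v0 x ∈ PC (Rf v0) := by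
    intro x hx
    have h1 : Rf v0 '' PC (Rf v0) ⊆ PC (Rf v0) := by
      unfold PC
      refine (image_closure_subset_closure_image (rat_continuous hcop)).trans (closure_mono ?_)
      rintro _ ⟨y, ⟨c', hc', n, hn, hy⟩, rfl⟩
      refine ⟨c', hc', n + 1, by omega, ?_⟩
      rw [Function.iterate_succ_apply', hy]
      rfl
    exact h1 ⟨x, hx, rfl⟩
  have hAinv : ∀ x ∈ A, g x ∈ A := by
    intro x hx
    rw [hA] at hx ⊢
    rcases hx with ⟨y, hy, rfl⟩ | hx
    · left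
      rw [hgφ]
      exact mem_image_of_mem _ (hPCinv y hy)
    · exact Or.inr (interior_subset (htrap.maps x hx))
  have hAcr : ∀ c', IsCrit g c' → g c' ∈ A := by
    intro c' hc'
    obtain ⟨y, rfl⟩ := φ.surjective c'
    have h1 : IsCrit (Rf v0) y := (isCrit_conj φ hgφ y).1 hc'
    rw [hA, hgφ]
    left
    refine mem_image_of_mem _ (subset_closure ⟨y, h1, 1, le_rfl, ?_⟩)
    rw [Function.iterate_one]
  have hcT : (c1 : OnePoint ℂ) ∉ A := by
    rw [hA, hc1]
    rintro (⟨y, hy, hyc⟩ | h)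
    · rw [φ.injective hyc] at hy
      exact hP hy
    · rw [hT'] at h
      obtain ⟨y, hy, hyc⟩ := h
      rw [φ.injective hyc] at hy
      exact hna (hT.att _ hy)
  obtain ⟨ρ, hρ, hρA⟩ : ∃ ρ : ℝ, 0 < ρ ∧ ∀ w ∈ ball c1 ρ, (w : OnePoint ℂ) ∉ A := by
    have h1 : (fun w : ℂ => (w : OnePoint ℂ)) ⁻¹' Aᶜ ∈ 𝓝 c1 :=
      OnePoint.continuous_coe.continuousAt.preimage_mem_nhds (hAc.isOpen_compl.mem_nhds hcT)
    obtain ⟨ρ, hρ, h2⟩ := Metric.mem_nhds_iff.1 h1
    exact ⟨ρ, hρ, fun w hw => h2 hw⟩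
  have hTA : T' ⊆ A := by rw [hA]; exact subset_union_right
  -- the radius
  obtain ⟨R, hR⟩ : ∃ R : ℝ, ∀ z : ℂ, R < ‖z‖ → (z : OnePoint ℂ) ∈ T' := by
    have h1 : Tendsto (fun z : ℂ => (z : OnePoint ℂ)) (Filter.cocompact ℂ) (𝓝 OnePoint.infty) := by
      rw [← Filter.coclosedCompact_eq_cocompact]
      exact OnePoint.tendsto_coe_infty
    have h2 : ∀ᶠ z : ℂ in Filter.cocompact ℂ, (z : OnePoint ℂ) ∈ T' := h1.eventually hTn
    rw [← Metric.cobounded_eq_cocompact,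
      (Metric.hasBasis_cobounded_compl_closedBall (0 : ℂ)).eventually_iff] at h2
    obtain ⟨R, -, hR⟩ := h2
    refine ⟨R, fun z hz => hR ?_⟩
    intro h3
    exact (mem_closedBall_zero_iff.1 h3).not_gt hz
  have hJ1 : (c1 : OnePoint ℂ) ∈ JS (Rf (Lin s v0)) := by
    rw [hc1]
    intro h
    exact hJ ((Pool.Agent.H76.SU.fs_conj hK hconj c).1 h)
  -- a point near `c1` which is mapped to the trap
  obtain ⟨z1, hz1, j, hj⟩ : ∃ z1 ∈ ball c1 (ρ / 64), ∃ j : ℕ, g^[j] (z1 : OnePoint ℂ) ∈ T' := by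
    have hfin := Pool.Agent.H47.RJ.exc_fin hd hcop1 hdeg1
      (B := (fun w : ℂ => (w : OnePoint ℂ)) '' ball c1 (ρ / 64))
      (OnePoint.isOpenEmbedding_coe.isOpenMap _ isOpen_ball)
      ⟨(c1 : OnePoint ℂ), ⟨c1, mem_ball_self (by positivity), rfl⟩, hJ1⟩
    have hinf : T'.Infinite := by
      have h1 : ((fun w : ℂ => (w : OnePoint ℂ)) '' (closedBall (0 : ℂ) R)ᶜ).Infinite := by
        refine Set.Infinite.image (OnePoint.coe_injective.injOn) ?_
        intro hf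
        have h2 : (closedBall (0 : ℂ) R).Infinite ∨ True := Or.inr trivial
        have h3 : IsCompact ((closedBall (0 : ℂ) R)ᶜ) := hf.isCompact
        have h4 : IsCompact (univ : Set ℂ) := by
          rw [← union_compl_self (closedBall (0 : ℂ) R)]
          exact (isCompact_closedBall _ _).union h3
        exact noncompact_univ ℂ h4
      refine h1.mono ?_
      rintro _ ⟨w, hw, rfl⟩
      apply hR
      by_contra hle
      exact hw (mem_closedBall_zero_iff.2 (not_lt.1 hle))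
    obtain ⟨t, htT, ht⟩ := (hinf.sdiff hfin).nonempty
    rw [Set.mem_ofPred_eq] at ht
    push Not at ht
    obtain ⟨j, y, ⟨z1, hz1, rfl⟩, hy⟩ := ht
    refine ⟨z1, hz1, j, ?_⟩
    rw [hg]
    change (Rf (Lin s v0))^[j] (z1 : OnePoint ℂ) = t at hy
    rw [hy]
    exact htT
  have hz1T : (z1 : OnePoint ℂ) ∉ T' := fun h =>
    hρA z1 (ball_subset_ball (by linarith) hz1) (hTA h)
  have hm : g^[j + 1] (z1 : OnePoint ℂ) ∈ interior T' := by
    rw [Function.iterate_succ_apply']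
    exact htrap.maps _ hj
  have hnper : ∀ n : ℕ, 1 ≤ n → g^[n] (z1 : OnePoint ℂ) ≠ (z1 : OnePoint ℂ) := by
    intro n hn h
    have h1 : ∀ k : ℕ, g^[n * k] (z1 : OnePoint ℂ) = (z1 : OnePoint ℂ) := by
      intro k
      rw [Function.iterate_mul]
      exact Function.iterate_fixed h k
    have h2 : g^[n * (j + 1)] (z1 : OnePoint ℂ) ∈ T' := by
      have h3 : n * (j + 1) = (n * (j + 1) - (j + 1)) + (j + 1) := by
        have : j + 1 ≤ n * (j + 1) := Nat.le_mul_of_pos_left _ hn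
        omega
      rw [h3, Function.iterate_add_apply]
      exact hTit _ _ (interior_subset hm)
    rw [h1] at h2
    exact hz1T h2
  obtain ⟨η, hη, hWs, hWm, hWn⟩ : ∃ η : ℝ, 0 < η ∧ ball z1 η ⊆ ball c1 (ρ / 64) ∧
      (∀ w ∈ ball z1 η, g^[j + 1] (w : OnePoint ℂ) ∈ interior T') ∧
      ∀ n ∈ Finset.range (j + 1), 1 ≤ n → ∀ w ∈ ball z1 η, ∀ w' ∈ ball z1 η,
        g^[n] (w : OnePoint ℂ) ≠ (w' : OnePoint ℂ) := by
    have hco : ∀ n : ℕ, ContinuousAt (fun w : ℂ => g^[n] (w : OnePoint ℂ)) z1 := fun n =>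
      ((hgc.iterate n).comp OnePoint.continuous_coe).continuousAt
    have h1 : ∀ᶠ w : ℂ in 𝓝 z1, w ∈ ball c1 (ρ / 64) := isOpen_ball.mem_nhds hz1
    have h2 : ∀ᶠ w : ℂ in 𝓝 z1, g^[j + 1] (w : OnePoint ℂ) ∈ interior T' :=
      (hco (j + 1)).eventually (isOpen_interior.mem_nhds hm)
    have h3 : ∀ n ∈ Finset.range (j + 1), ∃ U V : Set (OnePoint ℂ), 1 ≤ n →
        U ∈ 𝓝 (g^[n] (z1 : OnePoint ℂ)) ∧ V ∈ 𝓝 (z1 : OnePoint ℂ) ∧ Disjoint U V := by
      intro n _
      by_cases hn : 1 ≤ n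
      · obtain ⟨U, V, hU, hV, hd⟩ := t2_separation_nhds (hnper n hn)
        exact ⟨U, V, fun _ => ⟨hU, hV, hd⟩⟩
      · exact ⟨univ, univ, fun h => absurd h hn⟩
    choose! U V hUV using h3
    have h4 : ∀ᶠ w : ℂ in 𝓝 z1, ∀ n ∈ Finset.range (j + 1), 1 ≤ n →
        g^[n] (w : OnePoint ℂ) ∈ U n ∧ (w : OnePoint ℂ) ∈ V n := by
      rw [Filter.eventually_all_finset]
      intro n hn
      by_cases hn1 : 1 ≤ n
      · obtain ⟨h5, h6, -⟩ := hUV n hn hn1
        have h7 : ∀ᶠ w : ℂ in 𝓝 z1, g^[n] (w : OnePoint ℂ) ∈ U n := (hco n).eventually h5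
        have h8 : ∀ᶠ w : ℂ in 𝓝 z1, (w : OnePoint ℂ) ∈ V n :=
          OnePoint.continuous_coe.continuousAt.eventually h6
        filter_upwards [h7, h8] with w h9 h10 _
        exact ⟨h9, h10⟩
      · exact Filter.Eventually.of_forall fun w h => absurd h hn1
    obtain ⟨η, hη, h5⟩ := Metric.eventually_nhds_iff_ball.1 (h1.and (h2.and h4))
    refine ⟨η, hη, fun w hw => (h5 w hw).1, fun w hw => (h5 w hw).2.1, ?_⟩
    intro n hn hn1 w hw w' hw' he
    have h6 := ((h5 w hw).2.2 n hn hn1).1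
    have h7 := ((h5 w' hw').2.2 n hn hn1).2
    rw [he] at h6
    exact Set.disjoint_left.1 (hUV n hn hn1).2.2 h6 h7
  refine ⟨Lin s, G, φ, hG, hGL, hLG, fun v h2 h3 => (hall v h2 h3).2.2, c1, ρ, R, A, ball z1 η,
    hc1.symm, ?_, hJ1, ?_⟩
  · refine
      { rt := ⟨hd, hcop1, hdeg1⟩
        sys := ⟨hcop1, by rw [hdeg1]; omega, hAc, by rw [← hgr]; exact hAinv,
          by rw [← hgr]; exact hAcr, hTA (interior_subset hTinf), ?_⟩
        cr := ?_
        hρ := hρ
        off := hρA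
        bd := ?_
        Wm := measurableSet_ball
        Ws := hWs
        Wv := (measure_ball_pos volume z1 hη).ne'
        Wd := ?_ }
    · obtain ⟨a, ha⟩ : ∃ a : ℂ, (a : OnePoint ℂ) ∈ interior T' :=
        OnePoint.denseRange_coe.exists_mem_open isOpen_interior ⟨_, hTinf⟩
      exact ⟨a, hTA (interior_subset ha)⟩
    · have h1 : IsCrit (Rf (Lin s v0)) (c1 : OnePoint ℂ) := by
        rw [hc1]
        exact (isCrit_conj φ hconj c).2 hc
      exact crit_coe h1
    · rintro n x ⟨w, hw, hx⟩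
      rw [← hgr] at hx
      have hxT : x ∉ T' := by
        intro h
        apply hρA w hw
        rw [← hx]
        exact hTA (hTit n x h)
      induction x using OnePoint.rec with
      | infty => exact absurd (interior_subset hTinf) hxT
      | coe z =>
        refine ⟨z, rfl, ?_⟩
        by_contra hlt
        exact hxT (hR z (not_le.1 hlt))
    · intro n hn z hz z' hz'
      rw [← hgr]
      rcases Nat.lt_or_ge n (j + 1) with h | h
      · exact hWn n (Finset.mem_range.2 h) hn z hz z' hz'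
      · intro he
        apply hρA z' (ball_subset_ball (by linarith) (hWs hz'))
        rw [← he]
        have h3 : n = (n - (j + 1)) + (j + 1) := by omega
        rw [h3, Function.iterate_add_apply]
        exact hTA (hTit _ _ (interior_subset (hWm z hz)))
  · rw [← hφs, att_conj φ hconj]
    exact hT.att _ (interior_subset hsT)

end Pool.Agent.H57.CP
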