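import Pool.Agent.H57.CP.CLA
import Pool.Agent.H47.RJ.COV

/-!
# Module PER: repelling cycles near a Julia critical point off the critical limit sets

PROOFS. `K = KK ≥ 1`. `per0`: let `ε > 0`, and `ε' ≤ ε / (4 K + 2)` so small that `(4 K + 2) ε' ≤ ρ / 16`, `32 K ε' / ρ ≤ 1 / 2`. `B = ball c ε'` (open in the sphere, contains the Julia point `c`). `exc_fin` (H47/RJ/COV): all but finitely many points of the sphere are in `f^[j] '' B`, some `j`; so there is `q` with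
`ε' ≤ ‖q - c‖ < ρ / 16` (infinitely many points) and `z ∈ ball c ε'`, `f^[j] z = q`; `j ≥ 1` because `q ∉ B`. `ball q (ρ/2) ⊆ ball c ρ`: `Sys0.br` gives a branch `G` of the inverse of `f^[j]` on `ball q (ρ/2)` with `G q = z`, injective. `c ∉ G '' ball q (ρ/2)` (as in `ret`, H57/CP/CLA: `f^[j] c ∈ A`), so
`(ρ/2) * ‖deriv G q‖ / 16 ≤ ‖z - c‖ < ε'` (`cov_out`). `distort_lip` (H80/AJ/Distort): `G` is Lipschitz on `closedBall q (ρ/4)` with constant `K * 32 ε' / ρ ≤ 1 / 2`, and for `u ∈ closedBall q (ρ/8)`: `‖G u - z‖ ≤ 4 K ε'`, `‖G u - q‖ ≤ 4 K ε' + ε' + ρ / 16 ≤ ρ / 8`: `G` is a contraction of `closedBall q (ρ/8)`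
(`ContractingWith`, complete metric space of the subtype, or `ContractingWith.exists_fixedPoint'`): fixed point `p`, `‖p - c‖ ≤ ‖G p - z‖ + ‖z - c‖ ≤ (4 K + 1) ε' < ε`. `f^[j] p = p` (`Br.inv`), `‖deriv G p‖ ≤ 1/2 < 1` and `tD j p * deriv G p = 1` (`br_der`): `1 < ‖tD j p‖`.
`per`: `p, N = j` from `per0`. All `(gg a b)^[i] p`: `f^[N] p = p ∈ ball c ρ` and `orb`: `b ≠ 0` along `i < N`, then for all `i` by periodicity (`i % N`), `f^[i] p = (gg a b)^[i] p`. `c` is not in the cycle: `f^[i] p = c` implies (going round) `c = f^[k N] c ∈ A` (`crit_A`), but `c ∉ A` (`h.off`). Let `i0 < N` minimise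
`‖(gg a b)^[i] p - c‖` (all `i` reduce to `i < N`), `x i = (gg a b)^[i0 + i] p`: `‖x 0 - c‖ ≤ ‖p - c‖ < ε`. `tD N (x 0) = tD N p` (the product over the cycle: `tD_add` for `i0 + N = N + i0`, and `tD i0 p ≠ 0`).
-/

set_option autoImplicit false

open MeasureTheory Metric Set Polynomial Filter Topology

namespace Pool.Agent.H57.CP

open Pool.Agent.H44.Fatou (rat)
open Pool.Agent.H32.BT Pool.Agent.H80.AJ Pool.Agent.H61.TT Pool.Agent.H35.EX Pool.Agent.H79.Eul Pool.Agent.H79.Par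
open Pool.Agent.H44.RC

variable {d : ℕ} {v : E d} {c : ℂ} {ρ R0 : ℝ} {A : Set (OnePoint ℂ)} {W : Set ℂ}

theorem per0 (h : CS d (pol v.1) (pol v.2) c ρ R0 A W) (hJ : (c : OnePoint ℂ) ∈ JS (Rf v)) {ε : ℝ} (hε : 0 < ε) :
    ∃ (N : ℕ) (p : ℂ), 0 < N ∧ ‖p - c‖ < ε ∧ p ∈ ball c ρ ∧
      (rat (pol v.1) (pol v.2))^[N] (p : OnePoint ℂ) = (p : OnePoint ℂ) ∧ 1 < ‖tD (pol v.1) (pol v.2) N p‖ := by
  obtain ⟨f, hf⟩ : ∃ f, f = rat (pol v.1) (pol v.2) := ⟨_, rfl⟩
  have hρ := h.hρ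
  obtain ⟨K, hK⟩ : ∃ K, K = KK := ⟨_, rfl⟩
  have hK1 : 1 ≤ K := by rw [hK]; exact one_le_KK
  obtain ⟨η, hη⟩ : ∃ η, η = min (ε / (4 * K + 2)) (ρ / (64 * (4 * K + 2))) := ⟨_, rfl⟩
  have hη0 : 0 < η := by rw [hη]; positivity
  have hη1 : (4 * K + 2) * η ≤ ε := by
    have h1 : η ≤ ε / (4 * K + 2) := by rw [hη]; exact min_le_left _ _
    rw [le_div_iff₀ (by positivity)] at h1
    linarith
  have hη2 : 64 * ((4 * K + 2) * η) ≤ ρ := by
    have h1 : η ≤ ρ / (64 * (4 * K + 2)) := by rw [hη]; exact min_le_right _ _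
    rw [le_div_iff₀ (by positivity)] at h1
    linarith
  have hKη : 0 ≤ K * η := by positivity
  have hKη1 : η ≤ K * η := le_mul_of_one_le_left hη0.le hK1
  have hη3 : 256 * (K * η) + 128 * η ≤ ρ := by nlinarith
  have hη4 : 4 * (K * η) + 2 * η ≤ ε := by nlinarith
  -- a point `q` in the annulus which comes from the small disc
  obtain ⟨q, hq1, hq2, z, hz, j, hj⟩ : ∃ q : ℂ, η < ‖q - c‖ ∧ ‖q - c‖ < ρ / 16 ∧ ∃ z ∈ ball c η,
      ∃ j : ℕ, f^[j] (z : OnePoint ℂ) = (q : OnePoint ℂ) := by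
    have hfin := Pool.Agent.H47.RJ.exc_fin h.rt.hd h.rt.cop h.rt.deg
      (B := (fun w : ℂ => (w : OnePoint ℂ)) '' ball c η)
      (OnePoint.isOpenEmbedding_coe.isOpenMap _ isOpen_ball)
      ⟨(c : OnePoint ℂ), ⟨c, mem_ball_self hη0, rfl⟩, hJ⟩
    have hinf : ((fun w : ℂ => (w : OnePoint ℂ)) '' {q : ℂ | η < ‖q - c‖ ∧ ‖q - c‖ < ρ / 16}).Infinite := by
      refine Set.Infinite.image (OnePoint.coe_injective.injOn) ?_
      have hop : IsOpen {q : ℂ | η < ‖q - c‖ ∧ ‖q - c‖ < ρ / 16} :=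
        (isOpen_lt continuous_const (continuous_id.sub continuous_const).norm).inter
          (isOpen_lt (continuous_id.sub continuous_const).norm continuous_const)
      refine infinite_of_mem_nhds (c + ((ρ / 32 : ℝ) : ℂ)) (hop.mem_nhds ?_)
      have h1 : ‖c + ((ρ / 32 : ℝ) : ℂ) - c‖ = ρ / 32 := by
        rw [add_sub_cancel_left, Complex.norm_real, Real.norm_eq_abs, abs_of_pos (by positivity)]
      refine ⟨?_, ?_⟩
      · rw [h1]; linarith
      · rw [h1]; linarith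
    obtain ⟨_, ⟨q, hq, rfl⟩, ht⟩ := (hinf.sdiff hfin).nonempty
    rw [Set.mem_ofPred_eq] at ht
    push Not at ht
    obtain ⟨j, _, ⟨z, hz, rfl⟩, hy⟩ := ht
    exact ⟨q, hq.1, hq.2, z, hz, j, by rw [hf]; exact hy⟩
  have hj0 : 0 < j := by
    rcases Nat.eq_zero_or_pos j with h0 | h0
    · exfalso
      subst h0
      have h1 : z = q := OnePoint.coe_injective hj
      rw [h1, mem_ball_iff_norm] at hz
      linarith
    · exact h0
  have hzc : ‖z - c‖ < η := mem_ball_iff_norm.1 hz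
  have hsub : ball q (ρ / 2) ⊆ ball c ρ := by
    intro u hu
    rw [mem_ball_iff_norm] at hu ⊢
    have h1 := norm_add_le (u - q) (q - c)
    rw [sub_add_sub_cancel] at h1
    linarith
  have hoff : Off A q (ρ / 2) := fun u hu => h.off u (hsub hu)
  obtain ⟨G, hG⟩ := h.sys.br (R := ρ / 2) (by positivity) hoff (z := z) (n := j) (by rw [← hf]; exact hj)
  have hGz : G q = z := hG.val
  have hGi : InjOn G (ball q (ρ / 2)) := hG.inj
  have hGd : DifferentiableOn ℂ G (ball q (ρ / 2)) := hG.diff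
  have hcG : c ∉ G '' ball q (ρ / 2) := by
    rintro ⟨u, hu, hGu⟩
    have h1 := hG.inv u hu
    rw [hGu] at h1
    apply hoff u hu
    rw [← h1]
    exact crit_A h hj0
  have hder : ‖deriv G q‖ ≤ 32 * η / ρ := by
    have h1 := cov_out (R := ρ / 2) (by positivity) hGd hGi hcG
    rw [hGz, norm_sub_rev] at h1
    rw [le_div_iff₀ hρ]
    nlinarith
  have hKd : K * ‖deriv G q‖ ≤ 1 / 2 := by
    have h1 : K * ‖deriv G q‖ ≤ K * (32 * η / ρ) := mul_le_mul_of_nonneg_left hder (by linarith)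
    have h2 : K * (32 * η / ρ) ≤ 1 / 2 := by
      rw [← mul_div_assoc, div_le_iff₀ hρ]
      nlinarith
    linarith
  have hsub2 : closedBall q (ρ / 8) ⊆ closedBall q (ρ / 2 / 2) := closedBall_subset_closedBall (by linarith)
  have hq0 : q ∈ closedBall q (ρ / 2 / 2) := mem_closedBall_self (by positivity)
  have hlip : ∀ u ∈ closedBall q (ρ / 8), ∀ u' ∈ closedBall q (ρ / 8),
      ‖G u - G u'‖ ≤ K * ‖deriv G q‖ * ‖u - u'‖ := by
    intro u hu u' hu'
    rw [hK]
    exact distort_lip (by positivity) hGd hGi (hsub2 hu) (hsub2 hu') hq0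
  have hqq : q ∈ closedBall q (ρ / 8) := mem_closedBall_self (by positivity)
  have hGu : ∀ u ∈ closedBall q (ρ / 8), ‖G u - z‖ ≤ 4 * (K * η) := by
    intro u hu
    have h1 := hlip u hu q hqq
    rw [hGz] at h1
    refine h1.trans ?_
    have h2 : ‖u - q‖ ≤ ρ / 8 := by rw [← dist_eq_norm]; exact mem_closedBall.1 hu
    have h3 : K * ‖deriv G q‖ * ‖u - q‖ ≤ K * (32 * η / ρ) * (ρ / 8) := by
      refine mul_le_mul ?_ h2 (norm_nonneg _) (by positivity)
      exact mul_le_mul_of_nonneg_left hder (by linarith)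
    refine h3.trans (le_of_eq ?_)
    field_simp
    ring
  have hmaps : ∀ u ∈ closedBall q (ρ / 8), G u ∈ closedBall q (ρ / 8) := by
    intro u hu
    rw [mem_closedBall, dist_eq_norm]
    have h1 := hGu u hu
    have e : G u - q = (G u - z) + (z - c) + (c - q) := by ring
    have h2 : ‖G u - q‖ ≤ ‖G u - z‖ + ‖z - c‖ + ‖c - q‖ := by
      rw [e]
      exact norm_add₃_le
    rw [norm_sub_rev c q] at h2
    linarith
  -- the fixed point
  obtain ⟨p, hp, hmin⟩ := (isCompact_closedBall q (ρ / 8)).exists_isMinOn ⟨q, hqq⟩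
    (f := fun u => ‖G u - u‖) (by
      have h1 : ContinuousOn G (closedBall q (ρ / 8)) :=
        hGd.continuousOn.mono (closedBall_subset_ball (by linarith))
      exact (h1.sub continuousOn_id).norm)
  have hpf : G p = p := by
    by_contra hne
    have h1 : 0 < ‖G p - p‖ := norm_pos_iff.2 (sub_ne_zero.2 hne)
    have h2 := isMinOn_iff.1 hmin (G p) (hmaps p hp)
    have h3 := hlip (G p) (hmaps p hp) p hp
    have h4 : K * ‖deriv G q‖ * ‖G p - p‖ ≤ 1 / 2 * ‖G p - p‖ := mul_le_mul_of_nonneg_right hKd h1.le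
    have h5 : ‖G p - p‖ ≤ ‖G (G p) - G p‖ := h2
    linarith
  have hpb : p ∈ ball q (ρ / 2) := closedBall_subset_ball (by linarith) hp
  have hpd : ‖deriv G p‖ ≤ 1 / 2 := by
    refine le_trans ?_ hKd
    rw [hK]
    exact distort (by positivity) hGd hGi (hsub2 hp) hq0
  have hpc : ‖p - c‖ < ε := by
    have h1 := hGu p hp
    rw [hpf] at h1
    have e : p - c = (p - z) + (z - c) := by ring
    have h2 : ‖p - c‖ ≤ ‖p - z‖ + ‖z - c‖ := by
      rw [e]
      exact norm_add_le _ _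
    linarith
  refine ⟨j, p, hj0, hpc, hsub hpb, ?_, ?_⟩
  · have h1 := hG.inv p hpb
    rw [hpf] at h1
    exact h1
  · have h1 := br_der h hG hsub hpb
    rw [hpf] at h1
    have h2 : ‖tD (pol v.1) (pol v.2) j p‖ * ‖deriv G p‖ = 1 := by rw [← norm_mul, h1, norm_one]
    have h3 := norm_nonneg (tD (pol v.1) (pol v.2) j p)
    nlinarith

theorem per (h : CS d (pol v.1) (pol v.2) c ρ R0 A W) (hJ : (c : OnePoint ℂ) ∈ JS (Rf v)) {ε : ℝ} (hε : 0 < ε) :
    ∃ (N : ℕ) (x : ℕ → ℂ), Cyp (pol v.1) (pol v.2) c N x ∧ 1 < ‖tD (pol v.1) (pol v.2) N (x 0)‖ ∧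
      ‖x 0 - c‖ < ε ∧ ∀ i, ‖x 0 - c‖ ≤ ‖x i - c‖ := by
  obtain ⟨N, p, hN, hpε, hpρ, hpN, hpm⟩ := per0 h hJ hε
  obtain ⟨a, ha⟩ : ∃ a, a = pol v.1 := ⟨_, rfl⟩
  obtain ⟨b, hb⟩ : ∃ b, b = pol v.2 := ⟨_, rfl⟩
  rw [← ha, ← hb] at h hpN hpm ⊢
  have hpk : ∀ k, (rat a b)^[N * k] (p : OnePoint ℂ) = (p : OnePoint ℂ) := by
    intro k
    rw [Function.iterate_mul]
    exact Function.iterate_fixed hpN k
  have hlt : ∀ i : ℕ, i < N * (i + 1) := fun i => by
    have h1 : i + 1 ≤ N * (i + 1) := Nat.le_mul_of_pos_left _ hN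
    omega
  have hbne : ∀ i, b.eval ((gg a b)^[i] p) ≠ 0 := fun i =>
    ((orb h hpρ (hpk (i + 1))).2.2 i (hlt i)).1
  have hrat : ∀ i, (rat a b)^[i] (p : OnePoint ℂ) = (((gg a b)^[i] p : ℂ) : OnePoint ℂ) := fun i =>
    ((orb h hpρ (hpk (i + 1))).2.1 i (hlt i).le).1
  have hgN : (gg a b)^[N] p = p := by
    have h1 := hrat N
    rw [hpN] at h1
    exact (OnePoint.coe_injective h1).symm
  have hper : ∀ i, (gg a b)^[i + N] p = (gg a b)^[i] p := by
    intro i
    rw [Function.iterate_add_apply, hgN]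
  have hnc : ∀ i, (gg a b)^[i] p ≠ c := by
    intro i hi
    have h1 := hrat i
    rw [hi] at h1
    have h2 := hpk (i + 1)
    have e : N * (i + 1) = (N * (i + 1) - i) + i := by have := hlt i; omega
    rw [e, Function.iterate_add_apply, h1] at h2
    apply h.off p hpρ
    rw [← h2]
    exact crit_A h (by have := hlt i; omega)
  obtain ⟨i0, hi0, hmin⟩ := Finset.exists_min_image (Finset.range N) (fun i => ‖(gg a b)^[i] p - c‖)
    ⟨0, Finset.mem_range.2 hN⟩
  have hi0N := Finset.mem_range.1 hi0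
  have hmod : ∀ i, (gg a b)^[i] p = (gg a b)^[i % N] p := by
    intro i
    have h1 : ∀ k j : ℕ, (gg a b)^[j + N * k] p = (gg a b)^[j] p := by
      intro k
      induction k with
      | zero => intro j; rfl
      | succ k ih =>
        intro j
        have e : j + N * (k + 1) = j + N * k + N := by ring
        rw [e, hper, ih]
    conv_lhs => rw [← Nat.mod_add_div i N]
    exact h1 _ _
  have hall : ∀ i, ‖(gg a b)^[i0] p - c‖ ≤ ‖(gg a b)^[i] p - c‖ := by
    intro i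
    rw [hmod i]
    exact hmin _ (Finset.mem_range.2 (Nat.mod_lt i hN))
  have htD : tD a b N ((gg a b)^[i0] p) = tD a b N p := by
    have h1 := tD_add (a := a) (b := b) i0 N p
    have h2 := tD_add (a := a) (b := b) N i0 p
    rw [hgN] at h2
    rw [Nat.add_comm i0 N, h2] at h1
    have h3 : tD a b i0 p ≠ 0 := by
      intro h0
      have h4 := tD_add (a := a) (b := b) i0 (N - i0) p
      rw [h0, zero_mul] at h4
      have e : i0 + (N - i0) = N := by omega
      rw [e] at h4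
      exact tD_ne h hpρ hpN h4
    apply mul_left_cancel₀ h3
    rw [← h1, mul_comm]
  refine ⟨N, fun i => (gg a b)^[i0 + i] p, ⟨hN, fun i => hbne _, fun i => ?_, fun i => ?_, ?_, fun i => hnc _⟩,
    ?_, ?_, fun i => hall _⟩
  · show gg a b ((gg a b)^[i0 + i] p) = (gg a b)^[i0 + (i + 1)] p
    rw [← Function.iterate_succ_apply' (gg a b)]
    rfl
  · show (gg a b)^[i0 + (i + N)] p = (gg a b)^[i0 + i] p
    rw [← Nat.add_assoc]
    exact hper _
  · show tD a b N ((gg a b)^[i0 + 0] p) ≠ 1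
    rw [Nat.add_zero, htD]
    intro h1
    rw [h1, norm_one] at hpm
    exact lt_irrefl _ hpm
  · show 1 < ‖tD a b N ((gg a b)^[i0 + 0] p)‖
    rw [Nat.add_zero, htD]
    exact hpm
  · have h1 := hall 0
    exact lt_of_le_of_lt h1 hpε

end Pool.Agent.H57.CP
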