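import Pool.Agent.H57.CP.COR
import Pool.Agent.H57.CP.PER
import Pool.Agent.H57.CP.CHT
import Pool.Agent.H44.CP.MVL

/-!
# Module END: THEOREM (P1)

`Vel v0`: the velocities of the repelling cycles are bounded, in every direction `w` (this is `H44.CP.vel` for `¬ Up v0`).
PROOF. `core_up`: in the chart. `core` gives `w`, `C0`; `xi_surj` (H61/TT/Surj): `w' : E d` with `xi v w' z = w z / b z ^ 2`; `Vel`: `C`. `per` with `ε = 1 / (|C0| + |C| + 1)`: `N, x`. `Cyc (pol v.1) (pol v.2) N x (tD N (x 0))` (`Cyp`, `Wr` and `ww` are the same; `x i = (gg)^[i] (x 0)`); `u` from `Vel`; `wv v z / ev v.2 z ^ 2 = dg z`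
(`wv_pol`, `ev_pol`). `core`: `‖x 0 - c‖⁻¹ ≤ C0 + ‖u 0‖ ≤ C0 + C`: contradiction.
`P1`: chart, `up_chart` (H44/ND/UPN), `vel` at `L v0`.
-/

set_option autoImplicit false

open MeasureTheory Metric Set Polynomial Filter Topology

namespace Pool.Agent.H57.CP

open Pool.Agent.H44.Fatou (rat Wr)
open Pool.Agent.H32.BT Pool.Agent.H80.AJ Pool.Agent.H61.TT Pool.Agent.H35.EX Pool.Agent.H79.Eul Pool.Agent.H79.Par
open Pool.Agent.H44.RC Pool.Agent.H44.ND Pool.Agent.H47.NN Pool.Agent.H44.CP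

def Vel {d : ℕ} (v : E d) : Prop := ∀ w : E d, ∃ C : ℝ, ∀ (p : ℕ) (x : ℕ → ℂ) (m : ℂ), 0 < p →
  Cyc (pol v.1) (pol v.2) p x m → 1 < ‖m‖ → ∃ u : ℕ → ℂ, ‖u 0‖ ≤ C ∧
    (∀ i < p, u (i + 1) = Pool.Agent.H61.TT.dg (pol v.1) (pol v.2) (x i) * u i + xi v w (x i)) ∧ u p = u 0

theorem vel_of {d : ℕ} (hd : 2 ≤ d) {v : E d} (hcop : IsCoprime (pol v.1) (pol v.2))
    (hdeg : max (pol v.1).natDegree (pol v.2).natDegree = d) (hup : ¬ Up v)
    (hinf : Att (Rf v) OnePoint.infty) : Vel v := by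
  obtain ⟨R, -, -, h⟩ := vel hd hcop hdeg hup hinf
  intro w
  obtain ⟨C, -, h1⟩ := h w
  refine ⟨C, fun p x m hp hc hm => ?_⟩
  obtain ⟨u, h2, h3, h4⟩ := h1 p x m hp hc hm
  refine ⟨u, h2 0 (Nat.zero_le _), fun i hi => ?_, h3⟩
  rw [h4 i hi]
  unfold Pool.Agent.H61.TT.dg
  rw [wv_pol, ev_pol]

theorem cyc_of_cyp {a b : Polynomial ℂ} {c : ℂ} {N : ℕ} {x : ℕ → ℂ} (h : Cyp a b c N x) :
    Cyc a b N x (tD a b N (x 0)) := by
  have hx : ∀ i, (gg a b)^[i] (x 0) = x i := by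
    intro i
    induction i with
    | zero => rfl
    | succ i ih => rw [Function.iterate_succ_apply', ih, h.st]
  refine ⟨fun i _ => h.ne i, fun i _ => h.st i, ?_, ?_⟩
  · have h1 := h.per 0
    rwa [Nat.zero_add] at h1
  · unfold tD
    refine Finset.prod_congr rfl fun i _ => ?_
    rw [hx]
    rfl

theorem core_up {d : ℕ} {v : E d} {c : ℂ} {ρ R0 : ℝ} {A : Set (OnePoint ℂ)} {W : Set ℂ}
    (h : CS d (pol v.1) (pol v.2) c ρ R0 A W) (hJ : (c : OnePoint ℂ) ∈ JS (Rf v)) (hV : Vel v) : False := by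
  obtain ⟨w, C0, hw, hcore⟩ := core h
  obtain ⟨w', hw'⟩ := xi_surj h.rt hw
  obtain ⟨C, hC⟩ := hV w'
  obtain ⟨ε, hε⟩ : ∃ ε, ε = 1 / (|C0| + |C| + 1) := ⟨_, rfl⟩
  have hD : 0 < |C0| + |C| + 1 := by positivity
  have hε0 : 0 < ε := by rw [hε]; positivity
  obtain ⟨N, x, hx, hm, hxε, hmin⟩ := per h hJ hε0
  obtain ⟨u, hu0, hu, hup⟩ := hC N x _ hx.hN (cyc_of_cyp hx) hm
  have h1 := hcore N x hx hmin u hup (fun i hi => by rw [hu i hi, hw'])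
  have hne : 0 < ‖x 0 - c‖ := norm_pos_iff.2 (sub_ne_zero.2 (hx.nc 0))
  have h2 : |C0| + |C| + 1 < ‖x 0 - c‖⁻¹ := by
    rw [lt_inv_comm₀ hD hne, ← one_div]
    rwa [hε] at hxε
  have h3 := le_abs_self C0
  have h4 := le_abs_self C
  linarith

theorem P1 {d : ℕ} (hd : 2 ≤ d) {v0 : E d} (hcop : IsCoprime (pol v0.1) (pol v0.2))
    (hdeg : max (pol v0.1).natDegree (pol v0.2).natDegree = d) (hatt : ∃ z, Att (Rf v0) z) {c : OnePoint ℂ}
    (hc : IsCrit (Rf v0) c) (hJ : c ∈ JS (Rf v0)) (hP : c ∉ PC (Rf v0)) : Up v0 := by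
  by_contra hup
  obtain ⟨L, G, φ, hG, hGL, hLG, hcj, c1, ρ, R0, A, W, hφ, hCS, hJ1, hinf⟩ :=
    chart hd hcop hdeg hup hatt hc hJ hP
  refine core_up hCS hJ1 (vel_of hd hCS.rt.cop hCS.rt.deg ?_ hinf)
  intro h1
  exact hup (up_chart hd hG hGL hLG hcj hcop hdeg h1)

/-- (P1) -/
theorem pr_all {d : ℕ} (hd : 2 ≤ d) : PR d := by
  intro v hcop hdeg hs c hc hJ hP
  obtain ⟨z, n, hz⟩ := hs
  exact P1 hd hcop hdeg ⟨z, att_sink hz⟩ hc hJ hP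

/-- THEOREM P for maps with an attracting cycle -/
theorem p_main {d : ℕ} (hd : 2 ≤ d) :
    IsNowhereDense {v : E d | IsCoprime (pol v.1) (pol v.2) ∧
      max (pol v.1).natDegree (pol v.2).natDegree = d ∧ (∃ z n, IsSink (Rf v) z n) ∧
        ¬ ConcP (Rf v)} :=
  p_nd hd (pr_all hd)

end Pool.Agent.H57.CP
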