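import Pool.Agent.H57.CP.BRA

/-!
# Module CLA: returns to the small disc expand geometrically

PROOFS. `cov_out`: `G` injective and holomorphic on `ball w R`, `q ∉ G '' ball w R`: `R * ‖deriv G w‖ / 16 ≤ ‖q - G w‖` (`univ_cover`, H80/AJ/Cover, constant 1/16).
`ret`: `hn : 0 < n`, `f^[n] x = u`, `u ∈ ball c (ρ/64)`. `ball u (ρ/2) ⊆ ball c ρ`, so `Off A u (ρ/2)` and `Sys0.br` gives a branch `G` on `ball u (ρ/2)` with `G u = x`; it is injective (`Br.inj`). `c ∉ G '' ball u (ρ/2)`: if `c = G v` then `f^[n] c = v ∈ ball c ρ` is not in `A` (`h.off`), but `f^[n] c ∈ A` (`crit_A`).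
So by `cov_out`: `(ρ/2) * ‖deriv G u‖ / 16 ≤ ‖c - x‖`, and `tD n x * deriv G u = 1` (`br_der`, H57/CP/BRA; import it): `‖tD n x‖⁻¹ ≤ 32 * ‖x - c‖ / ρ`.
`clsum`: strong induction on `K`, for all `x`. Let `S = {n ∈ Icc 1 K | g^[n] x ∈ ball c (ρ/64)}`. If `S` is empty the sum is 0. Otherwise let `m` be its smallest element, `u = g^[m] x`. `tD (m + n) x = tD m x * tD n u` (`tD_add`) and `g^[m + n] x = g^[n] u`: the sum is
`‖tD m x‖⁻¹ * (1 + ∑_(n ∈ Icc 1 (K - m), ..) ‖tD n u‖⁻¹) ≤ (32 ‖x - c‖ / ρ) * (1 + 64 ‖u - c‖ / ρ) ≤ (32 ‖x - c‖ / ρ) * 2`, as `‖u - c‖ < ρ / 64` and `K - m < K` (`ret` for `m`; `f^[m] x = g^[m] x` by `rat_it`).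
-/

set_option autoImplicit false

open MeasureTheory Metric Set Polynomial Filter Topology

namespace Pool.Agent.H57.CP

open Pool.Agent.H44.Fatou (rat)
open Pool.Agent.H32.BT Pool.Agent.H80.AJ Pool.Agent.H61.TT Pool.Agent.H35.EX

variable {d : ℕ} {a b : Polynomial ℂ} {c : ℂ} {ρ R0 : ℝ} {A : Set (OnePoint ℂ)} {W : Set ℂ}

theorem cov_out {G : ℂ → ℂ} {w q : ℂ} {R : ℝ} (hR : 0 < R) (hG : DifferentiableOn ℂ G (ball w R))
    (hi : InjOn G (ball w R)) (hq : q ∉ G '' ball w R) : R * ‖deriv G w‖ / 16 ≤ ‖q - G w‖ := by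
  by_contra hlt
  push Not at hlt
  apply hq
  apply univ_cover hR hG hi
  rw [mem_ball, dist_eq_norm]
  exact hlt

theorem ret (h : CS d a b c ρ R0 A W) {n : ℕ} (hn : 0 < n) {x u : ℂ} (hu : u ∈ ball c (ρ / 64))
    (hx : (rat a b)^[n] (x : OnePoint ℂ) = (u : OnePoint ℂ)) : ‖tD a b n x‖⁻¹ ≤ 32 * ‖x - c‖ / ρ := by
  have hρ := h.hρ
  have hρ2 : 0 < ρ / 2 := by positivity
  have hsub : ball u (ρ / 2) ⊆ ball c ρ := by
    intro v hv
    rw [mem_ball, dist_eq_norm] at hv hu ⊢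
    have h1 : v - c = (v - u) + (u - c) := by ring
    rw [h1]
    refine (norm_add_le _ _).trans_lt ?_
    linarith
  obtain ⟨G, hG⟩ := h.sys.br hρ2 (h.off.mono hsub) hx
  have hc : c ∉ G '' ball u (ρ / 2) := by
    rintro ⟨v, hv, hvc⟩
    have h1 := hG.inv v hv
    rw [hvc] at h1
    apply h.off v (hsub hv)
    rw [← h1]
    exact crit_A h hn
  have h1 := cov_out hρ2 hG.diff hG.inj hc
  have h2 := br_der h hG hsub (mem_ball_self hρ2)
  rw [hG.val] at h1 h2
  have h3 : deriv G u = (tD a b n x)⁻¹ := eq_inv_of_mul_eq_one_right h2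
  rw [h3, norm_inv, norm_sub_rev] at h1
  rw [le_div_iff₀ hρ]
  linarith

theorem clsum (h : CS d a b c ρ R0 A W) (K : ℕ) : ∀ x : ℂ, (∀ i, b.eval ((gg a b)^[i] x) ≠ 0) →
    ∑ n ∈ (Finset.Icc 1 K).filter (fun n => ‖(gg a b)^[n] x - c‖ < ρ / 64), ‖tD a b n x‖⁻¹ ≤
      64 * ‖x - c‖ / ρ := by
  have hρ := h.hρ
  induction K using Nat.strong_induction_on with
  | _ K ih =>
    intro x hx
    rcases Finset.eq_empty_or_nonempty
      ((Finset.Icc 1 K).filter (fun n => ‖(gg a b)^[n] x - c‖ < ρ / 64)) with he | hne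
    · rw [he, Finset.sum_empty]
      positivity
    · obtain ⟨m, hm, hmin⟩ := Finset.exists_min_image _ id hne
      simp only [id] at hmin
      rw [Finset.mem_filter, Finset.mem_Icc] at hm
      obtain ⟨⟨hm1, hmK⟩, hmu⟩ := hm
      obtain ⟨u, hu⟩ : ∃ u, u = (gg a b)^[m] x := ⟨_, rfl⟩
      rw [← hu] at hmu
      have hub : ∀ i, b.eval ((gg a b)^[i] u) ≠ 0 := by
        intro i
        rw [hu, ← Function.iterate_add_apply]
        exact hx _
      have hret := ret h hm1 (x := x) (u := u) (by rwa [mem_ball, dist_eq_norm])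
        (by rw [rat_it (fun i _ => hx i) m le_rfl, hu])
      have hih := ih (K - m) (by omega) u hub
      have hsum : ∑ n ∈ (Finset.Icc 1 K).filter (fun n => ‖(gg a b)^[n] x - c‖ < ρ / 64), ‖tD a b n x‖⁻¹ ≤
          ‖tD a b m x‖⁻¹ * (1 + ∑ n ∈ (Finset.Icc 1 (K - m)).filter
            (fun n => ‖(gg a b)^[n] u - c‖ < ρ / 64), ‖tD a b n u‖⁻¹) := by
        rw [mul_add, mul_one, Finset.mul_sum]
        have h1 : (Finset.Icc 1 K).filter (fun n => ‖(gg a b)^[n] x - c‖ < ρ / 64) =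
            insert m (((Finset.Icc 1 (K - m)).filter
              (fun n => ‖(gg a b)^[n] u - c‖ < ρ / 64)).image (fun n => m + n)) := by
          ext n
          simp only [Finset.mem_filter, Finset.mem_Icc, Finset.mem_insert, Finset.mem_image]
          constructor
          · rintro ⟨⟨h1, h2⟩, h3⟩
            have h4 := hmin n (Finset.mem_filter.2 ⟨Finset.mem_Icc.2 ⟨h1, h2⟩, h3⟩)
            rcases Nat.eq_or_lt_of_le h4 with h5 | h5
            · exact Or.inl h5.symm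
            · refine Or.inr ⟨n - m, ⟨⟨by omega, by omega⟩, ?_⟩, by omega⟩
              rw [hu, ← Function.iterate_add_apply, Nat.sub_add_cancel h5.le]
              exact h3
          · rintro (rfl | ⟨n', ⟨⟨h1, h2⟩, h3⟩, rfl⟩)
            · exact ⟨⟨hm1, hmK⟩, by rw [← hu]; exact hmu⟩
            · refine ⟨⟨by omega, by omega⟩, ?_⟩
              rw [hu, ← Function.iterate_add_apply, add_comm] at h3
              exact h3
        rw [h1, Finset.sum_insert]
        · rw [Finset.sum_image (fun p _ q _ hpq => by simpa using hpq)]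
          refine le_of_eq ?_
          congr 1
          refine Finset.sum_congr rfl fun n _ => ?_
          rw [tD_add, ← hu, norm_mul, mul_inv]
        · intro hmem
          rw [Finset.mem_image] at hmem
          obtain ⟨n', hn', hn2⟩ := hmem
          rw [Finset.mem_filter, Finset.mem_Icc] at hn'
          omega
      have h3 : 64 * ‖u - c‖ / ρ ≤ 1 := by
        rw [div_le_one hρ]
        linarith
      calc _ ≤ _ := hsum
        _ ≤ (32 * ‖x - c‖ / ρ) * (1 + 1) := by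
          refine mul_le_mul hret (by linarith) ?_ (by positivity)
          have : 0 ≤ ∑ n ∈ (Finset.Icc 1 (K - m)).filter
            (fun n => ‖(gg a b)^[n] u - c‖ < ρ / 64), ‖tD a b n u‖⁻¹ :=
            Finset.sum_nonneg fun n _ => inv_nonneg.2 (norm_nonneg _)
          linarith
        _ = 64 * ‖x - c‖ / ρ := by ring

end Pool.Agent.H57.CP
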