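import Pool.Agent.H57.CP.BAS
import Pool.Agent.H61.TT.Area

/-!
# Module BRA: the inverse branches

PROOFS. `br`: `mem_Y` and `Sys0.br` (`w = c`, `R = ρ`, `h.off`), `gB` is the chosen one (`dif_pos`). `br_der`: `G` is holomorphic on `ball w R ⊆ ball c ρ`, `f^[n] (G u) = u`, so `(gg a b)^[n] (G u) = u` (`orb`), and `(gg a b)^[n]` has at `G u` the
derivative `tD n (G u)` (chain rule along the orbit, `hasDerivAt_gg` of H61/TT/Fib, denominators not 0 by `orb`): the derivative of `(gg a b)^[n] ∘ G = id` at `u` is 1. `br_Rs`: at `u = c`.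
`br_uni`: from the common value, `u = f^[n] (..) = u'`. `G = gB n y`, `G' = gB n y'`: the set `{u ∈ ball c ρ | G u = G' u}` is closed in the ball and open: near a common value `G u = z` the iterate `(gg a b)^[n]` is injective (its derivative `tD n z` is not 0: `HasStrictDerivAt`, or use `iter_inj` of H32/BT/Branch) and
`G, G'` are continuous; the ball is connected, so `G = G'` on the ball and `y = G c = G' c = y'`. (Or: both are analytic and agree near `u`: identity theorem.)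
`br_dis`: let `z = gB n y u = gB n' y' u'`, `u, u' ∈ W`. If `n = n'` then `br_uni`: `y = y'`. If `n < n'`: `f^[n'-n] u = f^[n'-n] (f^[n] z) = f^[n'] z = u'`, against `h.Wd`; symmetric for `n' < n`.
-/

set_option autoImplicit false

open MeasureTheory Metric Set Polynomial Filter Topology

namespace Pool.Agent.H57.CP

open Pool.Agent.H44.Fatou (rat)
open Pool.Agent.H32.BT Pool.Agent.H80.AJ Pool.Agent.H61.TT Pool.Agent.H35.EX

variable {d : ℕ} {a b : Polynomial ℂ} {c : ℂ} {ρ R0 : ℝ} {A : Set (OnePoint ℂ)} {W : Set ℂ}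

theorem bra_it {n : ℕ} {z : ℂ} (hb : ∀ i < n, b.eval ((gg a b)^[i] z) ≠ 0) :
    HasStrictDerivAt (gg a b)^[n] (tD a b n z) z := by
  induction n with
  | zero =>
    have h1 : tD a b 0 z = 1 := by simp [tD]
    rw [h1]
    exact hasStrictDerivAt_id z
  | succ n ih =>
    have h1 := ih (fun i hi => hb i (by omega))
    have h2 := hasStrictDerivAt_gg (a := a) (hb n (by omega))
    have h3 := h2.comp z h1
    rw [Function.iterate_succ']
    have h4 : tD a b (n + 1) z = Pool.Agent.H61.TT.dg a b ((gg a b)^[n] z) * tD a b n z := by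
      unfold tD
      rw [Finset.prod_range_succ, mul_comm]
    rw [h4]
    exact h3

theorem br (h : CS d a b c ρ R0 A W) {n : ℕ} {y : ℂ} (hy : y ∈ Y a b c n) :
    Br (rat a b) n c ρ y (gB a b c ρ n y) := by
  have hex : ∃ G : ℂ → ℂ, Br (rat a b) n c ρ y G := h.sys.br h.hρ h.off ((mem_Y h).1 hy)
  unfold gB
  rw [dif_pos hex]
  exact hex.choose_spec

theorem br_der (h : CS d a b c ρ R0 A W) {n : ℕ} {w z : ℂ} {R : ℝ} {G : ℂ → ℂ} (hG : Br (rat a b) n w R z G)
    (hs : ball w R ⊆ ball c ρ) {u : ℂ} (hu : u ∈ ball w R) : tD a b n (G u) * deriv G u = 1 := by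
  obtain ⟨h1, h2, h3⟩ := orb h (hs hu) (hG.inv u hu)
  have h4 : HasDerivAt G (deriv G u) u := (hG.diff.differentiableAt (isOpen_ball.mem_nhds hu)).hasDerivAt
  have h5 : HasDerivAt ((gg a b)^[n] ∘ G) (tD a b n (G u) * deriv G u) u :=
    (bra_it (fun i hi => (h3 i hi).1)).hasDerivAt.comp u h4
  have h6 : (gg a b)^[n] ∘ G =ᶠ[𝓝 u] id := by
    filter_upwards [isOpen_ball.mem_nhds hu] with v hv
    exact (orb h (hs hv) (hG.inv v hv)).1
  have h7 : HasDerivAt ((gg a b)^[n] ∘ G) 1 u := (hasDerivAt_id u).congr_of_eventuallyEq h6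
  exact h5.unique h7

theorem br_Rs (h : CS d a b c ρ R0 A W) {n : ℕ} {y : ℂ} (hy : y ∈ Y a b c n) :
    Rs a b n y = deriv (gB a b c ρ n y) c ^ 2 := by
  have h1 := br_der h (br h hy) subset_rfl (mem_ball_self h.hρ)
  rw [(br h hy).val] at h1
  have h3 : deriv (gB a b c ρ n y) c = (tD a b n y)⁻¹ := eq_inv_of_mul_eq_one_right h1
  rw [h3]
  unfold Rs
  rw [inv_pow]

theorem br_bd (h : CS d a b c ρ R0 A W) {n : ℕ} {y : ℂ} (hy : y ∈ Y a b c n) {u : ℂ} (hu : u ∈ ball c ρ) :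
    ‖gB a b c ρ n y u‖ ≤ R0 := by
  have h1 := ((orb h hu ((br h hy).inv u hu)).2.1 0 (Nat.zero_le _)).2.1
  simpa using h1

theorem br_uni (h : CS d a b c ρ R0 A W) {n : ℕ} {y y' : ℂ} (hy : y ∈ Y a b c n) (hy' : y' ∈ Y a b c n)
    {u u' : ℂ} (hu : u ∈ ball c ρ) (hu' : u' ∈ ball c ρ)
    (he : gB a b c ρ n y u = gB a b c ρ n y' u') : y = y' ∧ u = u' := by
  have hG := br h hy
  have hG' := br h hy'
  have huu : u = u' := by
    have h1 := hG.inv u hu
    rw [he, hG'.inv u' hu'] at h1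
    exact (OnePoint.coe_injective h1).symm
  refine ⟨?_, huu⟩
  subst huu
  obtain ⟨h1, h2, h3⟩ := orb h hu (hG.inv u hu)
  obtain ⟨U, hU, hinj⟩ := iter_inj (Pool.Agent.H44.Fatou.rat_continuous h.sys.cop)
    ((gB a b c ρ n y u : ℂ) : OnePoint ℂ) n (by
      intro i hi hcr
      have h4 := h.sys.crit _ hcr
      rw [← Function.iterate_succ_apply' (rat a b), (h2 (i + 1) hi).1] at h4
      exact (h2 (i + 1) hi).2.2 h4)
  have hc1 : ContinuousAt (gB a b c ρ n y) u := (hG.diff.differentiableAt (isOpen_ball.mem_nhds hu)).continuousAt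
  have hc2 : ContinuousAt (gB a b c ρ n y') u := (hG'.diff.differentiableAt (isOpen_ball.mem_nhds hu)).continuousAt
  have hev : gB a b c ρ n y =ᶠ[𝓝 u] gB a b c ρ n y' := by
    have e1 : ∀ᶠ v in 𝓝 u, ((gB a b c ρ n y v : ℂ) : OnePoint ℂ) ∈ U :=
      (OnePoint.continuous_coe.continuousAt.comp hc1).eventually_mem hU
    have e2 : ∀ᶠ v in 𝓝 u, ((gB a b c ρ n y' v : ℂ) : OnePoint ℂ) ∈ U := by
      refine (OnePoint.continuous_coe.continuousAt.comp hc2).eventually_mem ?_
      show U ∈ 𝓝 ((gB a b c ρ n y' u : ℂ) : OnePoint ℂ)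
      rw [← he]
      exact hU
    filter_upwards [e1, e2, isOpen_ball.mem_nhds hu] with v hv1 hv2 hv3
    apply OnePoint.coe_injective
    apply hinj hv1 hv2
    rw [hG.inv v hv3, hG'.inv v hv3]
  have ha1 : AnalyticOnNhd ℂ (gB a b c ρ n y) (ball c ρ) := hG.diff.analyticOnNhd isOpen_ball
  have ha2 : AnalyticOnNhd ℂ (gB a b c ρ n y') (ball c ρ) := hG'.diff.analyticOnNhd isOpen_ball
  have heq := ha1.eqOn_of_preconnected_of_eventuallyEq ha2 (convex_ball c ρ).isPreconnected hu hev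
  have h5 := heq (mem_ball_self h.hρ)
  rw [hG.val, hG'.val] at h5
  exact h5

theorem br_dis (h : CS d a b c ρ R0 A W) {n n' : ℕ} {y y' : ℂ} (hy : y ∈ Y a b c n) (hy' : y' ∈ Y a b c n')
    (hne : (n, y) ≠ (n', y')) : Disjoint (gB a b c ρ n y '' W) (gB a b c ρ n' y' '' W) := by
  have hWb : W ⊆ ball c ρ := h.Ws.trans (ball_subset_ball (by linarith [h.hρ]))
  rw [Set.disjoint_left]
  rintro z ⟨u, hu, hz⟩ ⟨u', hu', hz'⟩
  have e1 : (rat a b)^[n] (z : OnePoint ℂ) = (u : OnePoint ℂ) := by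
    rw [← hz]; exact (br h hy).inv u (hWb hu)
  have e2 : (rat a b)^[n'] (z : OnePoint ℂ) = (u' : OnePoint ℂ) := by
    rw [← hz']; exact (br h hy').inv u' (hWb hu')
  rcases lt_trichotomy n n' with hlt | heq | hlt
  · have e3 : (rat a b)^[n' - n] (u : OnePoint ℂ) = (u' : OnePoint ℂ) := by
      rw [← e1, ← Function.iterate_add_apply, Nat.sub_add_cancel hlt.le, e2]
    exact h.Wd (n' - n) (by omega) u hu u' hu' e3
  · subst heq
    apply hne
    rw [(br_uni h hy hy' (hWb hu) (hWb hu') (hz.trans hz'.symm)).1]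
  · have e3 : (rat a b)^[n - n'] (u' : OnePoint ℂ) = (u : OnePoint ℂ) := by
      rw [← e2, ← Function.iterate_add_apply, Nat.sub_add_cancel hlt.le, e1]
    exact h.Wd (n - n') (by omega) u' hu' u hu e3

end Pool.Agent.H57.CP
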