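import Pool.Agent.H57.CP.Defs

/-!
# Module BAS: planar backward orbits

PROOFS. `f = rat a b`, `g = gg a b`. (0) `b.eval z ≠ 0` implies `f z = g z` (`rat_coe_of_ne`, H44/Fatou/Basic, unfold `gg`); so if `b.eval (g^[i] z) ≠ 0` for all `i < n`
then `f^[i] z = g^[i] z` for `i ≤ n` (`rat_it`, induction with `Function.iterate_succ_apply'`).
`orb`: let `f^[n] z = w ∈ ball c ρ`. For `i ≤ n`: `f^[n - i] (f^[i] z) = w`, so by `h.bd` `f^[i] z` is finite and of norm at most `R0`. By induction on `i ≤ n`: `f^[i] z = g^[i] z`: if it holds for `i < n`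
then `f (g^[i] z)` is finite, so `b.eval (g^[i] z) ≠ 0` (`rat_coe`: `pt x y` is infinity if `y = 0`) and `f (g^[i] z) = g (g^[i] z)`. `f^[i] z ∉ A`: otherwise `w = f^[n - i] (f^[i] z) ∈ A` (`iter_mem h.sys.inv`, H80/AJ/Basic), against `h.off`.
`ww (g^[i] z) ≠ 0` for `i < n`: otherwise `g^[i] z` is a critical point (a zero of `ww a b` which is not a zero of `b` is critical: H32/BT/Crit or H91/Fatou/Crit, `not_injOn_of_deriv`; `ww a b` is `Wr a b` of H44/Fatou up to unfolding), so `f^[i+1] z ∈ A` (`h.sys.crit`).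
`mem_Y`: induction on `n` for all `y`; `Y (n+1)`: `y ∈ fs a b x` iff `b.eval y ≠ 0 ∧ g y = x` (`mem_fs`, H61/TT/Fib); if `f^[n+1] y = c` then `orb` gives `f y = g y`, `f^[n] (g y) = c`.
`crit_A`: `c` is critical, so `f c ∈ A` and `f^[n] c ∈ A` for `n ≥ 1`.
-/

set_option autoImplicit false

open MeasureTheory Metric Set Polynomial Filter Topology

namespace Pool.Agent.H57.CP

open Pool.Agent.H44.Fatou (rat)
open Pool.Agent.H32.BT Pool.Agent.H80.AJ Pool.Agent.H61.TT Pool.Agent.H35.EX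

variable {d : ℕ} {a b : Polynomial ℂ} {c : ℂ} {ρ R0 : ℝ} {A : Set (OnePoint ℂ)} {W : Set ℂ}

theorem rat_it {n : ℕ} {z : ℂ} (hb : ∀ i < n, b.eval ((gg a b)^[i] z) ≠ 0) :
    ∀ i ≤ n, (rat a b)^[i] (z : OnePoint ℂ) = ((gg a b)^[i] z : ℂ) := by
  intro i
  induction i with
  | zero => intro _; rfl
  | succ i ih =>
    intro hi
    rw [Function.iterate_succ_apply', ih (by omega), Function.iterate_succ_apply',
      Pool.Agent.H44.Fatou.rat_coe_of_ne (hb i (by omega))]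
    rfl

theorem orb (h : CS d a b c ρ R0 A W) {n : ℕ} {z w : ℂ} (hw : w ∈ ball c ρ)
    (hz : (rat a b)^[n] (z : OnePoint ℂ) = (w : OnePoint ℂ)) :
    (gg a b)^[n] z = w ∧ (∀ i ≤ n, (rat a b)^[i] (z : OnePoint ℂ) = ((gg a b)^[i] z : ℂ) ∧
      ‖(gg a b)^[i] z‖ ≤ R0 ∧ (((gg a b)^[i] z : ℂ) : OnePoint ℂ) ∉ A) ∧
      ∀ i < n, b.eval ((gg a b)^[i] z) ≠ 0 ∧ (ww a b).eval ((gg a b)^[i] z) ≠ 0 := by
  have hsplit : ∀ i ≤ n, (rat a b)^[n - i] ((rat a b)^[i] (z : OnePoint ℂ)) = (w : OnePoint ℂ) := by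
    intro i hi
    rw [← Function.iterate_add_apply, Nat.sub_add_cancel hi, hz]
  have hfin : ∀ i ≤ n, ∃ z' : ℂ, (rat a b)^[i] (z : OnePoint ℂ) = (z' : OnePoint ℂ) ∧ ‖z'‖ ≤ R0 :=
    fun i hi => h.bd (n - i) _ ⟨w, hw, hsplit i hi⟩
  have hA : ∀ i ≤ n, (rat a b)^[i] (z : OnePoint ℂ) ∉ A := by
    intro i hi hmem
    apply h.off w hw
    rw [← hsplit i hi]
    exact iter_mem h.sys.inv hmem (n - i)
  have key : ∀ i ≤ n, (rat a b)^[i] (z : OnePoint ℂ) = ((gg a b)^[i] z : ℂ) ∧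
      ∀ j < i, b.eval ((gg a b)^[j] z) ≠ 0 := by
    intro i
    induction i with
    | zero => intro _; exact ⟨rfl, fun j hj => absurd hj (by omega)⟩
    | succ i ih =>
      intro hi
      obtain ⟨h1, h2⟩ := ih (by omega)
      have hb : b.eval ((gg a b)^[i] z) ≠ 0 := by
        intro h0
        obtain ⟨z', hz', -⟩ := hfin (i + 1) hi
        rw [Function.iterate_succ_apply', h1, Pool.Agent.H44.Fatou.rat_coe, h0] at hz'
        unfold Pool.Agent.H44.Fatou.pt at hz'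
        rw [if_pos rfl] at hz'
        exact OnePoint.infty_ne_coe _ hz'
      refine ⟨?_, ?_⟩
      · rw [Function.iterate_succ_apply', h1, Function.iterate_succ_apply',
          Pool.Agent.H44.Fatou.rat_coe_of_ne hb]
        rfl
      · intro j hj
        rcases Nat.lt_succ_iff_lt_or_eq.1 hj with h3 | rfl
        · exact h2 j h3
        · exact hb
  refine ⟨?_, ?_, ?_⟩
  · have h1 := (key n le_rfl).1
    rw [hz] at h1
    exact (OnePoint.coe_injective h1).symm
  · intro i hi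
    obtain ⟨z', hz', hR⟩ := hfin i hi
    have h1 := (key i hi).1
    have h2 : z' = (gg a b)^[i] z := by
      rw [h1] at hz'
      exact (OnePoint.coe_injective hz').symm
    refine ⟨h1, h2 ▸ hR, ?_⟩
    rw [← h1]
    exact hA i hi
  · intro i hi
    refine ⟨(key n le_rfl).2 i hi, ?_⟩
    intro h0
    have h1 : IsCrit (rat a b) (((gg a b)^[i] z : ℂ) : OnePoint ℂ) :=
      crit_of_wr h.sys.cop h.sys.deg h0
    have h2 := h.sys.crit _ h1
    rw [← (key i hi.le).1, ← Function.iterate_succ_apply' (rat a b)] at h2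
    exact hA (i + 1) hi h2

theorem mem_Y (h : CS d a b c ρ R0 A W) {n : ℕ} {y : ℂ} :
    y ∈ Y a b c n ↔ (rat a b)^[n] (y : OnePoint ℂ) = (c : OnePoint ℂ) := by
  induction n generalizing y with
  | zero =>
    simp only [Y, Finset.mem_singleton, Function.iterate_zero, id]
    exact ⟨fun h => by rw [h], fun h => OnePoint.coe_injective h⟩
  | succ n ih =>
    rw [Y, Finset.mem_biUnion, Function.iterate_succ_apply]
    constructor
    · rintro ⟨x, hx, hy⟩
      obtain ⟨hb, hg⟩ := (mem_fs h.rt x y).1 hy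
      rw [Pool.Agent.H44.Fatou.rat_coe_of_ne hb]
      have h1 : a.eval y / b.eval y = x := hg
      rw [h1]
      exact ih.1 hx
    · intro hy
      have hy' : (rat a b)^[n + 1] (y : OnePoint ℂ) = (c : OnePoint ℂ) := by
        rw [Function.iterate_succ_apply]
        exact hy
      obtain ⟨-, h2, h3⟩ := orb h (mem_ball_self h.hρ) hy'
      have hb := (h3 0 (by omega)).1
      simp only [Function.iterate_zero, id] at hb
      refine ⟨gg a b y, ?_, (mem_fs h.rt _ y).2 ⟨hb, rfl⟩⟩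
      rw [ih]
      rw [Pool.Agent.H44.Fatou.rat_coe_of_ne hb] at hy
      exact hy

theorem crit_A (h : CS d a b c ρ R0 A W) {n : ℕ} (hn : 0 < n) :
    (rat a b)^[n] (c : OnePoint ℂ) ∈ A := by
  obtain ⟨m, rfl⟩ := Nat.exists_eq_succ_of_ne_zero hn.ne'
  rw [Function.iterate_succ_apply]
  exact iter_mem h.sys.inv (h.sys.crit _ (crit_of_wr h.sys.cop h.sys.deg h.cr)) m

theorem tD_succ (n : ℕ) (z : ℂ) :
    tD a b (n + 1) z = Pool.Agent.H61.TT.dg a b z * tD a b n (gg a b z) := by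
  unfold tD
  rw [Finset.prod_range_succ', mul_comm]
  rfl

theorem tD_add (m n : ℕ) (z : ℂ) : tD a b (m + n) z = tD a b m z * tD a b n ((gg a b)^[m] z) := by
  unfold tD
  rw [Finset.prod_range_add]
  congr 1
  refine Finset.prod_congr rfl fun i _ => ?_
  rw [add_comm m i, Function.iterate_add_apply]

theorem tD_ne (h : CS d a b c ρ R0 A W) {n : ℕ} {z w : ℂ} (hw : w ∈ ball c ρ)
    (hz : (rat a b)^[n] (z : OnePoint ℂ) = (w : OnePoint ℂ)) : tD a b n z ≠ 0 := by
  obtain ⟨-, -, h3⟩ := orb h hw hz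
  unfold tD
  refine Finset.prod_ne_zero_iff.2 fun i hi => ?_
  obtain ⟨h1, h2⟩ := h3 i (Finset.mem_range.1 hi)
  exact div_ne_zero h2 (pow_ne_zero 2 h1)

end Pool.Agent.H57.CP
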