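import Pool.Agent.H57.CP.BAS

/-!
# Module IDN: the cohomological equation, level by level

PROOFS. `reg`: `RegV d a b x` for `x ∈ Y n` (H61/TT/Defs). `hb`, `hw`: `y ∈ fs a b x` means `b.eval y ≠ 0`, `gg a b y = x` (`mem_fs`), so `y ∈ Y (n+1)` and `orb` gives `(ww a b).eval y ≠ 0`. `deg`: `fib a b x = a - x b` has degree at most `d`; if it is smaller then `rat a b ∞ = x` (`rat_infty`, H44/Fatou/Basic:
the leading coefficients; `x b_d = a_d`, not both 0), so `x ∈ A` (`h.sys.inf`, `h.sys.inv`) but `x ∉ A` (`orb` with `i = 0`). `card`: the roots of `fib a b x` are simple (`dg_fib`, H61/TT/Fib: `dg y = (fib)'(y) / b y ≠ 0`), `ℂ` is algebraically closed: `d` distinct roots.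
`lev`: for `x ∈ Y n` take `η x` from `lagr` (H61/TT/Lagr): for `z` with `b z ≠ 0`, `gg z ≠ x`: `∑_(y ∈ fs x) dg z / ((y - z) * dg y ^ 2) = 1 / (x - gg z) + (η x) z / b z ^ 2`. `Rs (n+1) y = Rs n x / dg y ^ 2` for `y ∈ fs x` (`tD_succ`, `gg y = x`). `Y (n+1)` is the disjoint union of the `fs x`, `x ∈ Y n`
(`Finset.sum_biUnion`; `mem_fs`: disjoint). So `η = ∑_(x ∈ Y n) C (- Rs n x) * η x` (natDegree at most `2 d`: `Polynomial.natDegree_sum_le`..).
-/

set_option autoImplicit false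

open MeasureTheory Metric Set Polynomial Filter Topology

namespace Pool.Agent.H57.CP

open Pool.Agent.H44.Fatou (rat)
open Pool.Agent.H32.BT Pool.Agent.H80.AJ Pool.Agent.H61.TT Pool.Agent.H35.EX

variable {d : ℕ} {a b : Polynomial ℂ} {c : ℂ} {ρ R0 : ℝ} {A : Set (OnePoint ℂ)} {W : Set ℂ}

theorem reg (h : CS d a b c ρ R0 A W) {n : ℕ} {x : ℂ} (hx : x ∈ Y a b c n) : RegV d a b x := by
  have hxo := orb h (mem_ball_self h.hρ) ((mem_Y h).1 hx)
  have hxA : (x : OnePoint ℂ) ∉ A := (hxo.2.1 0 (Nat.zero_le _)).2.2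
  have hdd := h.rt.hd
  have hA : a.natDegree ≤ d := h.rt.deg ▸ le_max_left _ _
  have hB : b.natDegree ≤ d := h.rt.deg ▸ le_max_right _ _
  have hdg : Pool.Agent.H44.Fatou.dg a b = d := h.rt.deg
  have hcoef : (fib a b x).coeff d ≠ 0 := by
    unfold fib
    rw [coeff_sub, coeff_C_mul]
    intro h0
    have h1 : a.coeff d = x * b.coeff d := sub_eq_zero.1 h0
    by_cases hb : b.coeff d = 0
    · have ha : a.coeff d = 0 := by rw [h1, hb, mul_zero]
      rcases max_choice a.natDegree b.natDegree with h2 | h2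
      · rw [h.rt.deg] at h2
        have h3 : a.leadingCoeff = 0 := by rw [leadingCoeff, ← h2]; exact ha
        rw [leadingCoeff_eq_zero] at h3
        rw [h3, natDegree_zero] at h2
        omega
      · rw [h.rt.deg] at h2
        have h3 : b.leadingCoeff = 0 := by rw [leadingCoeff, ← h2]; exact hb
        exact b_ne h.rt (leadingCoeff_eq_zero.1 h3)
    · have h2 : rat a b OnePoint.infty = (x : OnePoint ℂ) := by
        rw [Pool.Agent.H44.Fatou.rat_infty, hdg]
        unfold Pool.Agent.H44.Fatou.pt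
        rw [if_neg hb, h1, mul_div_cancel_right₀ _ hb]
      apply hxA
      rw [← h2]
      exact h.sys.inv _ h.sys.inf
  have hdeg : (fib a b x).natDegree = d := by
    apply le_antisymm
    · unfold fib
      exact (natDegree_sub_le _ _).trans (max_le hA ((natDegree_C_mul_le _ _).trans hB))
    · exact le_natDegree_of_ne_zero hcoef
  have hw : ∀ y ∈ fs a b x, b.eval y ≠ 0 ∧ (ww a b).eval y ≠ 0 := by
    intro y hy
    have hy' : y ∈ Y a b c (n + 1) := Finset.mem_biUnion.2 ⟨x, hx, hy⟩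
    have h1 := orb h (mem_ball_self h.hρ) ((mem_Y h).1 hy')
    exact h1.2.2 0 (Nat.succ_pos _)
  refine ⟨hdeg, ?_, fun y hy => (hw y hy).1, fun y hy => (hw y hy).2⟩
  have hsep : (fib a b x).Separable := by
    unfold Separable
    rw [isCoprime_iff_aeval_ne_zero_of_isAlgClosed ℂ ℂ]
    intro y
    rw [coe_aeval_eq_eval]
    by_contra hcon
    push Not at hcon
    have hy : y ∈ fs a b x := by
      unfold fs
      rw [Multiset.mem_toFinset, mem_roots (fib_ne h.rt x)]
      exact hcon.1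
    have h1 := dg_fib h.rt hy
    have hcon2 : (derivative (fib a b x)).eval y = 0 := hcon.2
    rw [hcon2, zero_div] at h1
    exact (dg_ne (hw y hy).1).2 (hw y hy).2 h1
  unfold fs
  rw [Multiset.toFinset_card_of_nodup (nodup_roots hsep), ← hdeg]
  exact (IsAlgClosed.splits (fib a b x)).natDegree_eq_card_roots.symm

theorem lev (h : CS d a b c ρ R0 A W) (n : ℕ) : ∃ η : Polynomial ℂ, η.natDegree ≤ 2 * d ∧
    ∀ z : ℂ, b.eval z ≠ 0 → (∀ x ∈ Y a b c n, gg a b z ≠ x) →
      ∑ x ∈ Y a b c n, Rs a b n x / (gg a b z - x) + η.eval z / b.eval z ^ 2 =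
        Pool.Agent.H61.TT.dg a b z * ∑ y ∈ Y a b c (n + 1), Rs a b (n + 1) y / (z - y) := by
  classical
  have hex : ∀ x : ℂ, ∃ η : Polynomial ℂ, x ∈ Y a b c n → η.natDegree ≤ 2 * d ∧
      ∀ z : ℂ, b.eval z ≠ 0 → gg a b z ≠ x →
        ∑ y ∈ fs a b x, Pool.Agent.H61.TT.dg a b z / ((y - z) * Pool.Agent.H61.TT.dg a b y ^ 2) =
          1 / (x - gg a b z) + η.eval z / b.eval z ^ 2 := by
    intro x
    by_cases hx : x ∈ Y a b c n
    · obtain ⟨η, h1, h2⟩ := lagr h.rt (reg h hx)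
      exact ⟨η, fun _ => ⟨h1, h2⟩⟩
    · exact ⟨0, fun hx' => absurd hx' hx⟩
  choose η hη using hex
  refine ⟨∑ x ∈ Y a b c n, C (-Rs a b n x) * η x, ?_, ?_⟩
  · refine natDegree_sum_le_of_forall_le _ _ fun x hx => ?_
    exact (natDegree_C_mul_le _ _).trans (hη x hx).1
  · intro z hbz hne
    have hpd : (↑(Y a b c n) : Set ℂ).PairwiseDisjoint (fs a b) := by
      intro x _ x' _ hxx
      rw [Function.onFun, Finset.disjoint_left]
      intro y hy hy'
      exact hxx (((mem_fs h.rt x y).1 hy).2.symm.trans ((mem_fs h.rt x' y).1 hy').2)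
    have hY : Y a b c (n + 1) = (Y a b c n).biUnion (fs a b) := by
      rw [Y]
    rw [hY, Finset.sum_biUnion hpd, eval_finsetSum, Finset.sum_div, ← Finset.sum_add_distrib,
      Finset.mul_sum]
    refine Finset.sum_congr rfl fun x hx => ?_
    have h1 := (hη x hx).2 z hbz (hne x hx)
    have h2 : ∀ y ∈ fs a b x, Rs a b (n + 1) y / (z - y) =
        -Rs a b n x * (1 / ((y - z) * Pool.Agent.H61.TT.dg a b y ^ 2)) := by
      intro y hy
      have h3 : Rs a b (n + 1) y = Rs a b n x / Pool.Agent.H61.TT.dg a b y ^ 2 := by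
        unfold Rs
        rw [tD_succ, ((mem_fs h.rt x y).1 hy).2, mul_pow, mul_inv, div_eq_mul_inv, mul_comm]
      rw [h3, ← neg_sub y z, div_neg, div_div, mul_one_div, neg_div,
        mul_comm (Pool.Agent.H61.TT.dg a b y ^ 2)]
    rw [Finset.sum_congr rfl h2, ← Finset.mul_sum, ← mul_assoc, mul_comm _ (-Rs a b n x),
      mul_assoc, Finset.mul_sum]
    simp only [mul_one_div]
    rw [h1, eval_mul, eval_C, ← neg_sub x (gg a b z), div_neg]
    ring

end Pool.Agent.H57.CP
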