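import Mathlib

/-!
# Module LIM: limits of polynomials of bounded degree

PROOF. If there is a `Finset` `T ⊆ Z` with `N + 1` elements: `η k` is the interpolation polynomial of its values on `T` (`Lagrange.eq_interpolate_of_eval_eq` or `Lagrange.eq_interpolate`, degree `< N + 1`), so `(η k).eval z = ∑_(t ∈ T) (η k).eval t * (Lagrange.basis T id t).eval z` for every `z`, which tends to
`∑_(t ∈ T) u t * (basis t).eval z`: take `η = Lagrange.interpolate T id u`. Otherwise `Z` is finite with at most `N` elements: `η = Lagrange.interpolate Z.toFinset id u` (degree `< N`).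
-/

set_option autoImplicit false

open Polynomial Filter Topology

namespace Pool.Agent.H57.CP

theorem lim_pol {N : ℕ} {Z : Set ℂ} {η : ℕ → Polynomial ℂ} (hd : ∀ k, (η k).natDegree ≤ N) {u : ℂ → ℂ}
    (hu : ∀ z ∈ Z, Tendsto (fun k => (η k).eval z) atTop (𝓝 (u z))) :
    ∃ η' : Polynomial ℂ, η'.natDegree ≤ N ∧ ∀ z ∈ Z, η'.eval z = u z := by
  classical
  have hint : ∀ (T : Finset ℂ) (r : ℂ → ℂ), (Lagrange.interpolate T id r).natDegree ≤ T.card - 1 := by
    intro T r
    rcases T.eq_empty_or_nonempty with rfl | hT
    · simp
    · have h1 := Lagrange.degree_interpolate_lt (s := T) (v := id) r (Set.injOn_id _)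
      by_cases h0 : Lagrange.interpolate T id r = 0
      · rw [h0]; simp
      · rw [degree_eq_natDegree h0] at h1
        have h2 : (Lagrange.interpolate T id r).natDegree < T.card := by exact_mod_cast h1
        omega
  by_cases hT : ∃ T : Finset ℂ, (T : Set ℂ) ⊆ Z ∧ T.card = N + 1
  · obtain ⟨T, hTZ, hTc⟩ := hT
    refine ⟨Lagrange.interpolate T id u, by have := hint T u; omega, fun z hz => ?_⟩
    have hk : ∀ k, (η k).eval z = ∑ t ∈ T, (η k).eval t * (Lagrange.basis T id t).eval z := by
      intro k
      have h1 : η k = Lagrange.interpolate T id (fun t => (η k).eval t) := by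
        refine Lagrange.eq_interpolate_of_eval_eq (s := T) (v := id) (fun t => (η k).eval t)
          (Set.injOn_id _) ?_ (fun t _ => rfl)
        refine (degree_le_natDegree).trans_lt ?_
        have h2 : (η k).natDegree < T.card := by have := hd k; omega
        exact_mod_cast h2
      conv_lhs => rw [h1]
      rw [Lagrange.interpolate_apply, eval_finset_sum]
      refine Finset.sum_congr rfl fun t _ => ?_
      rw [eval_mul, eval_C]
    have h1 : Tendsto (fun k => (η k).eval z) atTop
        (𝓝 (∑ t ∈ T, u t * (Lagrange.basis T id t).eval z)) := by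
      simp only [hk]
      exact tendsto_finset_sum _ fun t ht => (hu t (hTZ ht)).mul_const _
    rw [tendsto_nhds_unique (hu z hz) h1, Lagrange.interpolate_apply, eval_finset_sum]
    refine Finset.sum_congr rfl fun t _ => ?_
    rw [eval_mul, eval_C]
  · have hfin : Z.Finite := by
      by_contra hinf
      obtain ⟨T, hTZ, hTc⟩ := (show Z.Infinite from hinf).exists_subset_card_eq (N + 1)
      exact hT ⟨T, hTZ, hTc⟩
    have hcard : hfin.toFinset.card ≤ N := by
      by_contra hlt
      obtain ⟨T, hTs, hTc⟩ := Finset.exists_subset_card_eq (s := hfin.toFinset) (n := N + 1) (by omega)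
      apply hT
      refine ⟨T, fun z hz => ?_, hTc⟩
      exact hfin.mem_toFinset.1 (hTs hz)
    refine ⟨Lagrange.interpolate hfin.toFinset id u, by have := hint hfin.toFinset u; omega,
      fun z hz => ?_⟩
    exact Lagrange.eval_interpolate_at_node (s := hfin.toFinset) (v := id) u (Set.injOn_id _)
      (hfin.mem_toFinset.2 hz)

end Pool.Agent.H57.CP
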