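import Pool.Agent.H57.CP.TOT
import Pool.Agent.H57.CP.IDN
import Pool.Agent.H57.CP.LIM

/-!
# Module COR: the analytic core of THEOREM P

PROOF. `A_n z = ∑_(y ∈ Y n) Rs n y / (z - y)`, `S_K z = ∑_(n < K) A_n z`, `α z = ∑' n, A_n z`. Let `Z` be the set of the points of all planar cycles which do not contain `c` (the points `x i`, `Cyp`). (1) For `z = x i ∈ Z`: `(gg a b)^[j] z = x (i + j)`; the distance `s > 0` of the (finite) cycle to `c`; `tot`: `∑_n ‖A_n z‖` converges
(`Y 0 = {c}`, `z ≠ c`), so `S_K z → α z`. `z` and `gg z = x (i+1)` are not in any `Y n` (otherwise the cycle would contain `c`: `mem_Y`, `rat_it`). (2) `η_n` from `lev`: `dg z * (S_(K+1) z - 1 / (z - c)) = S_K (gg z) + E_K z / b z ^ 2`, `E_K = ∑_(n < K) η_n`. So `E_K z` converges on `Z`; `lim_pol` (`N = 2 d`): `E` with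
`dg z * (α z - 1 / (z - c)) = α (gg z) + E z / b z ^ 2` on `Z`. (3) `ww a b = (X - C c) * W1` (`h.cr`, `dvd_iff_isRoot`), `W1.natDegree ≤ 2 d` (`ww a b ≠ 0`, `natDegree (ww a b) ≤ 2 d`), `dg z / (z - c) = W1 z / b z ^ 2`. With `w = - (W1 + E)`: `α (gg z) = dg z * α z + w z / b z ^ 2` on `Z`.
(4) `u i - α (x i) =: δ i` satisfies `δ (i+1) = dg (x i) * δ i`, so `δ N = tD N (x 0) * δ 0` (`tD`, induction) and `δ N = δ 0`, `tD N (x 0) ≠ 1`: `δ 0 = 0`, `u 0 = α (x 0)`. (5) If `x 0` is the nearest point: `s = ‖x 0 - c‖` in `tot`: `‖α (x 0) - 1 / (x 0 - c)‖ ≤ 2 C`. So `C0 = 2 C`.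
-/

set_option autoImplicit false

open MeasureTheory Metric Set Polynomial Filter Topology

namespace Pool.Agent.H57.CP

open Pool.Agent.H44.Fatou (rat)
open Pool.Agent.H32.BT Pool.Agent.H80.AJ Pool.Agent.H61.TT Pool.Agent.H35.EX

variable {d : ℕ} {a b : Polynomial ℂ} {c : ℂ} {ρ R0 : ℝ} {A : Set (OnePoint ℂ)} {W : Set ℂ}

/-- the part of level `n` -/
noncomputable def An (a b : Polynomial ℂ) (c : ℂ) (n : ℕ) (z : ℂ) : ℂ :=
  ∑ y ∈ Y a b c n, Rs a b n y / (z - y)

theorem an_zero (a b : Polynomial ℂ) (c z : ℂ) : An a b c 0 z = 1 / (z - c) := by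
  have h1 : Y a b c 0 = {c} := rfl
  have h2 : Rs a b 0 c = 1 := by
    unfold Rs tD
    rw [Finset.range_zero, Finset.prod_empty, one_pow, inv_one]
  unfold An
  rw [h1, Finset.sum_singleton, h2]

/-- a cycle in the plane which does not contain `c` -/
structure Cyq (a b : Polynomial ℂ) (c : ℂ) (N : ℕ) (x : ℕ → ℂ) : Prop where
  hN : 0 < N
  ne : ∀ i, b.eval (x i) ≠ 0
  st : ∀ i, gg a b (x i) = x (i + 1)
  per : ∀ i, x (i + N) = x i
  nc : ∀ i, x i ≠ c

theorem Cyq.shift {N : ℕ} {x : ℕ → ℂ} (h : Cyq a b c N x) (j : ℕ) :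
    Cyq a b c N (fun i => x (i + j)) := by
  refine ⟨h.hN, fun i => h.ne _, fun i => ?_, fun i => ?_, fun i => h.nc _⟩
  · show gg a b (x (i + j)) = x (i + 1 + j)
    rw [h.st]
    congr 1
    omega
  · show x (i + N + j) = x (i + j)
    rw [← h.per (i + j)]
    congr 1
    omega

theorem Cyq.it {N : ℕ} {x : ℕ → ℂ} (h : Cyq a b c N x) (i : ℕ) : (gg a b)^[i] (x 0) = x i := by
  induction i with
  | zero => rfl
  | succ i ih => rw [Function.iterate_succ_apply', ih, h.st]

theorem Cyq.dist {N : ℕ} {x : ℕ → ℂ} (h : Cyq a b c N x) : ∃ s : ℝ, 0 < s ∧ ∀ i, s ≤ ‖x i - c‖ := by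
  obtain ⟨i0, hi0, hmin⟩ := Finset.exists_min_image (Finset.range N) (fun i => ‖x i - c‖)
    ⟨0, Finset.mem_range.2 h.hN⟩
  refine ⟨‖x i0 - c‖, norm_pos_iff.2 (sub_ne_zero.2 (h.nc i0)), fun i => ?_⟩
  have h1 : ∀ k j : ℕ, x (j + N * k) = x j := by
    intro k
    induction k with
    | zero => intro j; rfl
    | succ k ih =>
      intro j
      have e : j + N * (k + 1) = j + N * k + N := by ring
      rw [e, h.per, ih]
  have h2 : x i = x (i % N) := by
    conv_lhs => rw [← Nat.mod_add_div i N]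
    exact h1 _ _
  rw [h2]
  exact hmin _ (Finset.mem_range.2 (Nat.mod_lt i h.hN))

theorem cyq_nY (h : CS d a b c ρ R0 A W) {N : ℕ} {x : ℕ → ℂ} (hx : Cyq a b c N x) (n : ℕ) :
    x 0 ∉ Y a b c n := by
  intro hy
  have h1 := (mem_Y h).1 hy
  have h2 := rat_it (a := a) (b := b) (n := n) (z := x 0) (fun i _ => by rw [hx.it]; exact hx.ne i) n le_rfl
  rw [h2, hx.it] at h1
  exact hx.nc n (OnePoint.coe_injective h1)

theorem core (h : CS d a b c ρ R0 A W) : ∃ (w : Polynomial ℂ) (C0 : ℝ), w.natDegree ≤ 2 * d ∧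
    ∀ (N : ℕ) (x : ℕ → ℂ), Cyp a b c N x → (∀ i, ‖x 0 - c‖ ≤ ‖x i - c‖) →
      ∀ u : ℕ → ℂ, u N = u 0 → (∀ i < N, u (i + 1) = Pool.Agent.H61.TT.dg a b (x i) * u i +
        w.eval (x i) / b.eval (x i) ^ 2) → ‖x 0 - c‖⁻¹ - C0 ≤ ‖u 0‖ := by
  classical
  obtain ⟨M, hM0, htot⟩ := tot h
  choose η hηd hη using lev h
  obtain ⟨Z, hZ⟩ : ∃ Z : Set ℂ, Z = {z | ∃ N x, Cyq a b c N x ∧ x 0 = z} := ⟨_, rfl⟩
  obtain ⟨α, hα⟩ : ∃ α : ℂ → ℂ, α = fun z => ∑' n, An a b c n z := ⟨_, rfl⟩
  -- the bound and summability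
  have hbd : ∀ (N : ℕ) (x : ℕ → ℂ), Cyq a b c N x → ∀ s : ℝ, 0 < s → (∀ i, s ≤ ‖x i - c‖) →
      ∀ K : ℕ, ∑ n ∈ Finset.range K, ‖An a b c (n + 1) (x 0)‖ ≤ M * (1 + ‖x 0 - c‖ / s) := by
    intro N x hx s hs hsx K
    have h1 := htot (x 0) s hs (fun i => by rw [hx.it]; exact hx.ne i)
      (fun i => by rw [hx.it]; exact hsx i) K
    refine le_trans ?_ h1
    have h2 : ∑ n ∈ Finset.range K, ‖An a b c (n + 1) (x 0)‖ =
        ∑ n ∈ Finset.Icc 1 K, ‖An a b c n (x 0)‖ := by
      rw [Finset.range_eq_Ico, Finset.sum_Ico_add' (fun n => ‖An a b c n (x 0)‖) 0 K 1]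
      rfl
    rw [h2]
    refine Finset.sum_le_sum fun n _ => ?_
    unfold An
    refine (norm_sum_le _ _).trans (le_of_eq ?_)
    refine Finset.sum_congr rfl fun y _ => ?_
    rw [norm_div]
  have hsum1 : ∀ z ∈ Z, Summable fun n => ‖An a b c (n + 1) z‖ := by
    intro z hz
    rw [hZ] at hz
    obtain ⟨N, x, hx, rfl⟩ := hz
    obtain ⟨s, hs, hsx⟩ := hx.dist
    exact summable_of_sum_range_le (fun n => norm_nonneg _) (hbd N x hx s hs hsx)
  have hsum : ∀ z ∈ Z, Summable fun n => An a b c n z := by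
    intro z hz
    exact (summable_nat_add_iff 1).1 (hsum1 z hz).of_norm
  have hZg : ∀ z ∈ Z, gg a b z ∈ Z := by
    intro z hz
    rw [hZ] at hz ⊢
    obtain ⟨N, x, hx, rfl⟩ := hz
    refine ⟨N, _, hx.shift 1, ?_⟩
    show x (0 + 1) = gg a b (x 0)
    rw [hx.st]
  have hZb : ∀ z ∈ Z, b.eval z ≠ 0 := by
    intro z hz
    rw [hZ] at hz
    obtain ⟨N, x, hx, rfl⟩ := hz
    exact hx.ne 0
  have hZc : ∀ z ∈ Z, z ≠ c := by
    intro z hz
    rw [hZ] at hz
    obtain ⟨N, x, hx, rfl⟩ := hz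
    exact hx.nc 0
  have hZY : ∀ z ∈ Z, ∀ n, z ∉ Y a b c n := by
    intro z hz n
    rw [hZ] at hz
    obtain ⟨N, x, hx, rfl⟩ := hz
    exact cyq_nY h hx n
  have hA0 : ∀ z, An a b c 0 z = 1 / (z - c) := an_zero a b c
  -- the equation of level `K`
  have hK : ∀ z ∈ Z, ∀ K : ℕ, (∑ n ∈ Finset.range K, η n).eval z = b.eval z ^ 2 *
      (Pool.Agent.H61.TT.dg a b z * ∑ n ∈ Finset.range K, An a b c (n + 1) z -
        ∑ n ∈ Finset.range K, An a b c n (gg a b z)) := by
    intro z hz K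
    rw [eval_finset_sum, Finset.mul_sum, ← Finset.sum_sub_distrib, Finset.mul_sum]
    refine Finset.sum_congr rfl fun n _ => ?_
    have h1 := hη n z (hZb z hz) (fun y hy he => hZY _ (hZg z hz) n (by rw [he]; exact hy))
    have hb := hZb z hz
    have h2 : An a b c n (gg a b z) + (η n).eval z / b.eval z ^ 2 =
        Pool.Agent.H61.TT.dg a b z * An a b c (n + 1) z := h1
    have h3 : (η n).eval z = b.eval z ^ 2 * ((η n).eval z / b.eval z ^ 2) := by
      field_simp
    rw [h3, ← h2]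
    ring
  obtain ⟨E, hEd, hE⟩ := lim_pol (N := 2 * d) (Z := Z) (η := fun K => ∑ n ∈ Finset.range K, η n)
    (u := fun z => b.eval z ^ 2 * (Pool.Agent.H61.TT.dg a b z * (α z - 1 / (z - c)) - α (gg a b z)))
    (fun K => natDegree_sum_le_of_forall_le _ _ fun n _ => hηd n) (by
      intro z hz
      have h1 := (hsum z hz).hasSum.tendsto_sum_nat
      have h2 := (hsum _ (hZg z hz)).hasSum.tendsto_sum_nat
      have h3 : Tendsto (fun K => ∑ n ∈ Finset.range K, An a b c (n + 1) z) atTop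
          (𝓝 (α z - 1 / (z - c))) := by
        have h4 := (h1.comp (tendsto_add_atTop_nat 1)).sub_const (1 / (z - c))
        rw [hα]
        refine h4.congr fun K => ?_
        show ∑ n ∈ Finset.range (K + 1), An a b c n z - 1 / (z - c) = _
        rw [Finset.sum_range_succ', hA0]
        ring
      have h4 : Tendsto (fun K => ∑ n ∈ Finset.range K, An a b c n (gg a b z)) atTop
          (𝓝 (α (gg a b z))) := by
        rw [hα]
        exact h2
      refine (((h3.const_mul _).sub h4).const_mul _).congr fun K => ?_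
      exact (hK z hz K).symm)
  -- the linear factor
  have hroot : (X - C c) ∣ ww a b := dvd_iff_isRoot.2 h.cr
  obtain ⟨W1, hW1⟩ := hroot
  have hwwd : (ww a b).natDegree ≤ 2 * d := by
    have ha : a.natDegree ≤ d := by rw [← h.rt.deg]; exact le_max_left _ _
    have hb : b.natDegree ≤ d := by rw [← h.rt.deg]; exact le_max_right _ _
    have e3 := natDegree_derivative_le a
    have e4 := natDegree_derivative_le b
    unfold ww
    refine (natDegree_sub_le _ _).trans (max_le ?_ ?_)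
    · refine natDegree_mul_le.trans ?_
      omega
    · refine natDegree_mul_le.trans ?_
      omega
  have hW1d : W1.natDegree ≤ 2 * d := by
    by_cases h0 : W1 = 0
    · rw [h0]; simp
    · have h1 : (ww a b).natDegree = 1 + W1.natDegree := by
        rw [hW1, natDegree_mul (X_sub_C_ne_zero c) h0, natDegree_X_sub_C]
      omega
  refine ⟨-(W1 + E), 2 * M, ?_, ?_⟩
  · rw [natDegree_neg]
    exact (natDegree_add_le _ _).trans (max_le hW1d hEd)
  · intro N x hx hmin u huN hu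
    have hq : Cyq a b c N x := ⟨hx.hN, hx.ne, hx.st, hx.per, hx.nc⟩
    have hxZ : ∀ i, x i ∈ Z := by
      intro i
      rw [hZ]
      refine ⟨N, _, hq.shift i, ?_⟩
      show x (0 + i) = x i
      rw [Nat.zero_add]
    have heq : ∀ i, α (x (i + 1)) = Pool.Agent.H61.TT.dg a b (x i) * α (x i) +
        (-(W1 + E)).eval (x i) / b.eval (x i) ^ 2 := by
      intro i
      have h1 := hE (x i) (hxZ i)
      have hb := hx.ne i
      have hc' := sub_ne_zero.2 (hx.nc i)
      have h2 : Pool.Agent.H61.TT.dg a b (x i) = (x i - c) * W1.eval (x i) / b.eval (x i) ^ 2 := by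
        unfold Pool.Agent.H61.TT.dg
        rw [hW1, eval_mul, eval_sub, eval_X, eval_C]
      rw [hx.st] at h1
      rw [eval_neg, eval_add, h1]
      have h3 : Pool.Agent.H61.TT.dg a b (x i) * (1 / (x i - c)) = W1.eval (x i) / b.eval (x i) ^ 2 := by
        rw [h2]
        field_simp
      have h4 : b.eval (x i) ^ 2 ≠ 0 := pow_ne_zero 2 hb
      rw [neg_div, add_div, mul_div_cancel_left₀ _ h4, mul_sub, h3]
      ring
    have hδ : ∀ i, i ≤ N → u i - α (x i) = tD a b i (x 0) * (u 0 - α (x 0)) := by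
      intro i
      induction i with
      | zero =>
        intro _
        unfold tD
        simp
      | succ i ih =>
        intro hi
        have h1 := ih (by omega)
        have h2 : tD a b (i + 1) (x 0) = tD a b i (x 0) * Pool.Agent.H61.TT.dg a b (x i) := by
          unfold tD
          rw [Finset.prod_range_succ, hq.it]
        rw [hu i (by omega), heq i, h2]
        have h3 : Pool.Agent.H61.TT.dg a b (x i) * u i +
            (-(W1 + E)).eval (x i) / b.eval (x i) ^ 2 - (Pool.Agent.H61.TT.dg a b (x i) * α (x i) +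
              (-(W1 + E)).eval (x i) / b.eval (x i) ^ 2) =
            Pool.Agent.H61.TT.dg a b (x i) * (u i - α (x i)) := by ring
        rw [h3, h1]
        ring
    have h0 : u 0 = α (x 0) := by
      have h1 := hδ N le_rfl
      have h2 : x N = x 0 := by
        have := hx.per 0
        rwa [Nat.zero_add] at this
      rw [huN, h2] at h1
      have h3 : (tD a b N (x 0) - 1) * (u 0 - α (x 0)) = 0 := by linear_combination -h1
      rcases mul_eq_zero.1 h3 with h4 | h4
      · exact absurd (sub_eq_zero.1 h4) hx.rep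
      · exact sub_eq_zero.1 h4
    have hpos : 0 < ‖x 0 - c‖ := norm_pos_iff.2 (sub_ne_zero.2 (hx.nc 0))
    have h1 : ‖α (x 0) - 1 / (x 0 - c)‖ ≤ 2 * M := by
      have h2 := (hsum (x 0) (hxZ 0)).hasSum.tendsto_sum_nat
      have h3 : Tendsto (fun K => ∑ n ∈ Finset.range K, An a b c (n + 1) (x 0)) atTop
          (𝓝 (α (x 0) - 1 / (x 0 - c))) := by
        have h4 := (h2.comp (tendsto_add_atTop_nat 1)).sub_const (1 / (x 0 - c))
        rw [hα]
        refine h4.congr fun K => ?_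
        show ∑ n ∈ Finset.range (K + 1), An a b c n (x 0) - 1 / (x 0 - c) = _
        rw [Finset.sum_range_succ', hA0]
        ring
      refine le_of_tendsto' h3.norm fun K => (norm_sum_le _ _).trans ?_
      have h4 := hbd N x hq ‖x 0 - c‖ hpos hmin K
      rw [div_self hpos.ne'] at h4
      linarith
    rw [h0]
    have h2 : ‖(1 : ℂ) / (x 0 - c)‖ = ‖x 0 - c‖⁻¹ := by rw [norm_div, norm_one, one_div]
    have h3 := norm_sub_norm_le (1 / (x 0 - c)) (α (x 0))
    rw [norm_sub_rev] at h3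
    linarith

end Pool.Agent.H57.CP
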