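import Pool.Agent.H35.EX.AJ.Bound
import Pool.Agent.H61.TT.Lagr
import Pool.Agent.H61.TT.Surj
import Pool.Agent.H80.AJ.Distort
import Pool.Agent.H80.AJ.Cover

/-!
# THEOREM P (a Julia critical point outside the critical limit sets): definitions

`a / b` is a rational map of degree `d`, `c` a critical point in the plane. `Y n`: the points `y` with `f^n y = c`. `tD n`: the derivative
of the `n`-th iterate. `Rs n y = (f^n)'(y)^(-2)`. `CS`: the standing assumptions in the chart: `A` is a closed forward invariant set with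
all critical values and infinity, `ball c ρ` does not meet `A`, all preimages of `ball c ρ` are in `closedBall 0 R0`, `W` is a set of
positive area near `c` with pairwise disjoint preimages. `gB n y`: the branch of the inverse of `f^n` on `ball c ρ` with value `y` at `c`.
-/

set_option autoImplicit false

open MeasureTheory Metric Set Polynomial Filter Topology

namespace Pool.Agent.H57.CP

open Pool.Agent.H44.Fatou (rat)
open Pool.Agent.H32.BT Pool.Agent.H80.AJ Pool.Agent.H61.TT Pool.Agent.H35.EX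

/-- the points of level `n` of the backward orbit of `c` -/
noncomputable def Y (a b : Polynomial ℂ) (c : ℂ) : ℕ → Finset ℂ
  | 0 => {c}
  | n + 1 => (Y a b c n).biUnion (fs a b)

/-- the derivative of the `n`-th iterate -/
noncomputable def tD (a b : Polynomial ℂ) (n : ℕ) (z : ℂ) : ℂ :=
  ∏ i ∈ Finset.range n, Pool.Agent.H61.TT.dg a b ((gg a b)^[i] z)

/-- the residues -/
noncomputable def Rs (a b : Polynomial ℂ) (n : ℕ) (y : ℂ) : ℂ := (tD a b n y ^ 2)⁻¹

/-- the branch of the inverse of the `n`-th iterate on `ball c ρ` with value `y` at `c` -/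
noncomputable def gB (a b : Polynomial ℂ) (c : ℂ) (ρ : ℝ) (n : ℕ) (y : ℂ) : ℂ → ℂ := by
  classical
  exact if h : ∃ G : ℂ → ℂ, Br (rat a b) n c ρ y G then h.choose else fun _ => y

/-- the standing assumptions in the chart -/
structure CS (d : ℕ) (a b : Polynomial ℂ) (c : ℂ) (ρ R0 : ℝ) (A : Set (OnePoint ℂ)) (W : Set ℂ) : Prop where
  rt : RatD d a b
  sys : Sys0 a b A
  cr : (ww a b).eval c = 0
  hρ : 0 < ρ
  off : Off A c ρ
  bd : ∀ (n : ℕ) (x : OnePoint ℂ), (∃ w ∈ ball c ρ, (rat a b)^[n] x = (w : OnePoint ℂ)) →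
    ∃ z : ℂ, x = (z : OnePoint ℂ) ∧ ‖z‖ ≤ R0
  Wm : MeasurableSet W
  Ws : W ⊆ ball c (ρ / 64)
  Wv : volume W ≠ 0
  Wd : ∀ n : ℕ, 0 < n → ∀ z ∈ W, ∀ z' ∈ W, (rat a b)^[n] (z : OnePoint ℂ) ≠ (z' : OnePoint ℂ)

/-- a cycle in the plane which does not contain `c`, with the point `x 0` nearest to `c` -/
structure Cyp (a b : Polynomial ℂ) (c : ℂ) (N : ℕ) (x : ℕ → ℂ) : Prop where
  hN : 0 < N
  ne : ∀ i, b.eval (x i) ≠ 0
  st : ∀ i, gg a b (x i) = x (i + 1)
  per : ∀ i, x (i + N) = x i
  rep : tD a b N (x 0) ≠ 1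
  nc : ∀ i, x i ≠ c

end Pool.Agent.H57.CP
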