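import Pool.Agent.H57.CP.Defs
import Pool.Agent.H31.CP.Far

/-!
# Module FAR: the sum over the branches which do not cover a point (abstract form)

`K = KK` (distortion constant on the half disc, `distort`, `distort_lip` in H80/AJ/Distort), `D = ball c (ρ/64)`, `y i = g i c`, `r i = ‖deriv (g i) c‖`.
PROOF. (1) `‖g i z - y i‖ ≤ K * r i * ρ` for `z ∈ D` (`distort_lip`). If `x ∉ g i '' D` then `(ρ/64) * r i / 16 ≤ ‖x - y i‖` (`univ_cover`, H80/AJ/Cover, applied to `g i` on `D`). So `‖x - z'‖ ≤ (1 + 1024 K) * ‖x - y i‖` for `z' ∈ g i '' D`.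
(2) area: `K⁻¹ * r i ≤ ‖deriv (g i) z‖` on `D`, so `volume (g i '' W) ≥ ofReal (r i ^ 2 / K ^ 2) * volume W` (`lintegral_image_eq_lintegral_abs_det_fderiv_mul`, `abs_det_smulRight` of H61/TT/Area; `W` measurable, `g i` injective and holomorphic on `ball c ρ`).
(3) for `x ∉ g i '' D`: `r i ^ 2 / ‖x - y i‖ * vol W ≤ K ^ 2 * ∫_(g i '' W) 1 / ‖x - y i‖ ≤ K ^ 2 * (1 + 1024 K) * ∫_(g i '' W) dz / ‖x - z‖` (lower Lebesgue integrals of `ENNReal.ofReal (1 / ‖x - z‖)`).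
(4) the sets `g i '' W` are measurable (`MeasurableSet.image_of_continuousOn_injOn`, or `measurable_image_of_fderivWithin`), pairwise disjoint and in `closedBall 0 R0`: the sum over `S` is at most `K ^ 2 (1 + 1024 K) / vol W * ∫_(closedBall 0 R0) dz / ‖x - z‖`.
(5) `∫_(closedBall 0 R0) dz / ‖x - z‖ ≤ C1` for all `x`: split into `‖x - z‖ < 1` (`∫_(ball 0 1) dz / ‖z‖` is finite: is `2π`, in the library as in H91/CS or H35/EX SerM, or Mathlib `integrableOn_ball_norm..`) and `‖x - z‖ ≥ 1` (area of the ball). The second claim: the same with `1` in place of `1 / ‖x - z‖`.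
-/

set_option autoImplicit false

open MeasureTheory Metric Set Polynomial Filter Topology

namespace Pool.Agent.H57.CP

open Pool.Agent.H80.AJ

theorem far {ι : Type*} {c : ℂ} {ρ R0 : ℝ} {W : Set ℂ} (hρ : 0 < ρ) (hWm : MeasurableSet W)
    (hWs : W ⊆ ball c (ρ / 64)) (hWv : volume W ≠ 0) (g : ι → ℂ → ℂ)
    (hg : ∀ i, DifferentiableOn ℂ (g i) (ball c ρ)) (hi : ∀ i, InjOn (g i) (ball c ρ))
    (hb : ∀ i, ∀ u ∈ ball c ρ, ‖g i u‖ ≤ R0)
    (hdis : ∀ i j, i ≠ j → Disjoint (g i '' W) (g j '' W)) :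
    ∃ C : ℝ, 0 ≤ C ∧ ∀ S : Finset ι, ∑ i ∈ S, ‖deriv (g i) c‖ ^ 2 ≤ C ∧
      ∀ x : ℂ, (∀ i ∈ S, x ∉ g i '' ball c (ρ / 64)) →
        ∑ i ∈ S, ‖deriv (g i) c‖ ^ 2 / ‖x - g i c‖ ≤ C := by
  obtain ⟨C0, h1, h2⟩ := Pool.Agent.H31.CP.far hρ hg hi (R0 := R0 + 1) (fun i => by
    rintro _ ⟨u, hu, rfl⟩
    rw [mem_ball_zero_iff]
    exact lt_of_le_of_lt (hb i u hu) (lt_add_one _)) hWm hWv hWs hdis
  refine ⟨max C0 0, le_max_right _ _, fun S => ⟨(h1 S).trans (le_max_left _ _), fun x hx =>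
    (h2 x S hx).trans (le_max_left _ _)⟩⟩

end Pool.Agent.H57.CP
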