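import Pool.Agent.H57.CP.FAR
import Pool.Agent.H57.CP.CLA

/-!
# Module TOT: the sums of the simple poles converge, with bounds

PROOFS. `close_term`: `G = gB n y`, `x = G u`, `u ∈ ball c (ρ/64)`, `u = f^[n] x = (gg a b)^[n] x` (`br`, `orb`), `u ≠ c`. `x ∉ G '' ball c ‖u - c‖` (injective on `ball c ρ`), so `cov_out` on `ball c ‖u - c‖`: `‖u - c‖ * ‖deriv G c‖ / 16 ≤ ‖x - y‖`. `‖deriv G c‖ ≤ KK * ‖deriv G u‖` (`distort`) and
`tD n x * deriv G u = 1` (`br_der`), `Rs n y = deriv G c ^ 2` (`br_Rs`): `‖Rs n y‖ / ‖x - y‖ ≤ 16 ‖deriv G c‖ / ‖u - c‖ ≤ 16 KK / (‖tD n x‖ ‖u - c‖)`.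
`tot`: `C` from `far` with `ι = {p : ℕ × ℂ // p.2 ∈ Y a b c p.1}`, `g p = gB p.1 p.2` (`br`, `Br.inj`, `br_bd`, `br_dis`). Split the sum over `n ∈ Icc 1 K`, `y ∈ Y n` into the pairs with `x ∉ gB n y '' ball c (ρ/64)` (at most `C`; `Finset.sigma`, `Finset.sum_sigma`) and the others: for these `(gg a b)^[n] x ∈ ball c (ρ/64)` and for each `n` there is at most
one such `y` (`br_uni`), so they contribute at most `∑_(n ∈ Icc 1 K, ‖g^[n] x - c‖ < ρ/64) 16 KK / (‖tD n x‖ * s) ≤ 16 KK / s * 64 ‖x - c‖ / ρ` (`close_term`, `clsum`). `C' = max C (1024 KK / ρ)`.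
`totR`: the first part of `far`.
-/

set_option autoImplicit false

open MeasureTheory Metric Set Polynomial Filter Topology

namespace Pool.Agent.H57.CP

open Pool.Agent.H44.Fatou (rat)
open Pool.Agent.H32.BT Pool.Agent.H80.AJ Pool.Agent.H61.TT Pool.Agent.H35.EX

variable {d : ℕ} {a b : Polynomial ℂ} {c : ℂ} {ρ R0 : ℝ} {A : Set (OnePoint ℂ)} {W : Set ℂ}

theorem close_term (h : CS d a b c ρ R0 A W) {n : ℕ} {y : ℂ} (hy : y ∈ Y a b c n) {x : ℂ}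
    (hx : x ∈ gB a b c ρ n y '' ball c (ρ / 64)) (hne : (gg a b)^[n] x ≠ c) :
    ‖Rs a b n y‖ / ‖x - y‖ ≤ 16 * KK * (‖tD a b n x‖⁻¹ / ‖(gg a b)^[n] x - c‖) := by
  obtain ⟨u, hu, rfl⟩ := hx
  have hρ := h.hρ
  have hK := KK_pos
  have hB := br h hy
  have hRs := br_Rs h hy
  obtain ⟨G, hG⟩ : ∃ G, G = gB a b c ρ n y := ⟨_, rfl⟩
  rw [← hG] at hB hRs hne ⊢
  have hsub : ball c (ρ / 64) ⊆ ball c ρ := ball_subset_ball (by linarith)
  have huρ := hsub hu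
  have h1 := (orb h huρ (hB.inv u huρ)).1
  rw [h1] at hne ⊢
  have hcu : 0 < ‖u - c‖ := norm_pos_iff.2 (sub_ne_zero.2 hne)
  have hur : ‖u - c‖ < ρ / 64 := by
    rw [← dist_eq_norm]
    exact hu
  have hb2 : ball c ‖u - c‖ ⊆ ball c ρ := ball_subset_ball (by linarith)
  have hnot : G u ∉ G '' ball c ‖u - c‖ := by
    rintro ⟨v, hv, hvu⟩
    have h2 := hB.inj (hb2 hv) huρ hvu
    rw [h2, mem_ball, dist_eq_norm] at hv
    exact lt_irrefl _ hv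
  have h2 := cov_out hcu (hB.diff.mono hb2) (hB.inj.mono hb2) hnot
  rw [hB.val] at h2
  have h3 := br_der h hB (Subset.refl _) huρ
  have h4 : ‖tD a b n (G u)‖⁻¹ = ‖deriv G u‖ := by
    have h5 := congrArg norm h3
    rw [norm_mul, norm_one] at h5
    exact (eq_inv_of_mul_eq_one_right h5).symm
  have h5 : ‖deriv G c‖ ≤ KK * ‖deriv G u‖ := distort hρ hB.diff hB.inj
    (mem_closedBall_self (by positivity)) (ball_subset_closedBall
      (ball_subset_ball (by linarith) hu))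
  have hGc : 0 < ‖deriv G c‖ := deriv_ne hρ hB.diff hB.inj (mem_closedBall_self (by positivity))
  have hpos : 0 < ‖G u - y‖ := lt_of_lt_of_le (by positivity) h2
  rw [hRs, norm_pow, h4, div_le_iff₀ hpos]
  have h6 : ‖deriv G c‖ ≤ 16 * ‖G u - y‖ / ‖u - c‖ := by
    rw [le_div_iff₀ hcu]
    linarith
  calc ‖deriv G c‖ ^ 2 = ‖deriv G c‖ * ‖deriv G c‖ := sq _
    _ ≤ (KK * ‖deriv G u‖) * (16 * ‖G u - y‖ / ‖u - c‖) :=
        mul_le_mul h5 h6 (norm_nonneg _) (by positivity)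
    _ = 16 * KK * (‖deriv G u‖ / ‖u - c‖) * ‖G u - y‖ := by ring

/-- index set of all the branches -/
abbrev Ind (a b : Polynomial ℂ) (c : ℂ) : Type := {p : (_ : ℕ) × ℂ // p.2 ∈ Y a b c p.1}

theorem far_all (h : CS d a b c ρ R0 A W) : ∃ C : ℝ, 0 ≤ C ∧ ∀ S : Finset (Ind a b c),
    ∑ i ∈ S, ‖Rs a b i.1.1 i.1.2‖ ≤ C ∧
      ∀ x : ℂ, (∀ i ∈ S, x ∉ gB a b c ρ i.1.1 i.1.2 '' ball c (ρ / 64)) →
        ∑ i ∈ S, ‖Rs a b i.1.1 i.1.2‖ / ‖x - i.1.2‖ ≤ C := by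
  obtain ⟨C, hC0, hC⟩ := far (ι := Ind a b c) h.hρ h.Wm h.Ws h.Wv
    (fun i => gB a b c ρ i.1.1 i.1.2) (fun i => (br h i.2).diff) (fun i => (br h i.2).inj)
    (fun i u hu => br_bd h i.2 hu) (fun i j hij => br_dis h i.2 j.2 (fun he => hij (by
      apply Subtype.ext
      apply Sigma.ext
      · exact congrArg Prod.fst he
      · exact heq_of_eq (congrArg Prod.snd he))))
  have e1 : ∀ i : Ind a b c, ‖Rs a b i.1.1 i.1.2‖ =
      ‖deriv (gB a b c ρ i.1.1 i.1.2) c‖ ^ 2 := fun i => by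
    rw [br_Rs h i.2, norm_pow]
  have e2 : ∀ i : Ind a b c, gB a b c ρ i.1.1 i.1.2 c = i.1.2 := fun i => (br h i.2).val
  refine ⟨C, hC0, fun S => ⟨?_, fun x hx => ?_⟩⟩
  · refine le_of_eq_of_le (Finset.sum_congr rfl fun i _ => e1 i) (hC S).1
  · refine le_of_eq_of_le (Finset.sum_congr rfl fun i _ => ?_) ((hC S).2 x hx)
    rw [e1, e2]

theorem tot (h : CS d a b c ρ R0 A W) : ∃ C : ℝ, 0 ≤ C ∧ ∀ (x : ℂ) (s : ℝ), 0 < s →
    (∀ i, b.eval ((gg a b)^[i] x) ≠ 0) → (∀ i, s ≤ ‖(gg a b)^[i] x - c‖) → ∀ K : ℕ,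
      ∑ n ∈ Finset.Icc 1 K, ∑ y ∈ Y a b c n, ‖Rs a b n y‖ / ‖x - y‖ ≤ C * (1 + ‖x - c‖ / s) := by
  classical
  obtain ⟨C, hC0, hC⟩ := far_all h
  have hρ := h.hρ
  have hK := KK_pos
  have hsub : ball c (ρ / 64) ⊆ ball c ρ := ball_subset_ball (by linarith)
  refine ⟨max C (1024 * KK / ρ), le_trans hC0 (le_max_left _ _), fun x s hs hb hsx K => ?_⟩
  set F : Finset ((_ : ℕ) × ℂ) := (Finset.Icc 1 K).sigma (Y a b c) with hF
  have e0 : ∑ n ∈ Finset.Icc 1 K, ∑ y ∈ Y a b c n, ‖Rs a b n y‖ / ‖x - y‖ =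
      ∑ p ∈ F, ‖Rs a b p.1 p.2‖ / ‖x - p.2‖ := by
    rw [hF, Finset.sum_sigma]
  set F1 := F.filter (fun p => x ∈ gB a b c ρ p.1 p.2 '' ball c (ρ / 64)) with hF1
  set F2 := F.filter (fun p => ¬ x ∈ gB a b c ρ p.1 p.2 '' ball c (ρ / 64)) with hF2
  rw [e0, ← Finset.sum_filter_add_sum_filter_not F
    (fun p => x ∈ gB a b c ρ p.1 p.2 '' ball c (ρ / 64))]
  -- the far part
  have hfar : ∑ p ∈ F2, ‖Rs a b p.1 p.2‖ / ‖x - p.2‖ ≤ C := by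
    have hmem : ∀ p ∈ F2, p.2 ∈ Y a b c p.1 := fun p hp =>
      (Finset.mem_sigma.1 (Finset.mem_filter.1 hp).1).2
    have h1 := (hC (F2.subtype fun p => p.2 ∈ Y a b c p.1)).2 x (by
      intro i hi
      rw [Finset.mem_subtype] at hi
      exact (Finset.mem_filter.1 hi).2)
    rw [Finset.sum_subtype_of_mem (fun p : (_ : ℕ) × ℂ => ‖Rs a b p.1 p.2‖ / ‖x - p.2‖) hmem] at h1
    exact h1
  -- the close part
  have hpt : ∀ p ∈ F1, p.1 ∈ (Finset.Icc 1 K).filter (fun n => ‖(gg a b)^[n] x - c‖ < ρ / 64) ∧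
      ‖Rs a b p.1 p.2‖ / ‖x - p.2‖ ≤ 16 * KK / s * ‖tD a b p.1 x‖⁻¹ := by
    intro p hp
    obtain ⟨h1, h2⟩ := Finset.mem_filter.1 hp
    obtain ⟨h3, h4⟩ := Finset.mem_sigma.1 h1
    have hne : (gg a b)^[p.1] x ≠ c := by
      intro h0
      have h5 := hsx p.1
      rw [h0, sub_self, norm_zero] at h5
      linarith
    have h5 := close_term h h4 h2 hne
    obtain ⟨u, hu, hux⟩ := h2
    have h6 := (orb h (hsub hu) ((br h h4).inv u (hsub hu))).1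
    rw [hux] at h6
    refine ⟨Finset.mem_filter.2 ⟨h3, ?_⟩, h5.trans ?_⟩
    · rw [h6, ← dist_eq_norm]
      exact hu
    · have h7 : ‖tD a b p.1 x‖⁻¹ / ‖(gg a b)^[p.1] x - c‖ ≤ ‖tD a b p.1 x‖⁻¹ / s :=
        div_le_div_of_nonneg_left (inv_nonneg.2 (norm_nonneg _)) hs (hsx p.1)
      calc 16 * KK * (‖tD a b p.1 x‖⁻¹ / ‖(gg a b)^[p.1] x - c‖)
          ≤ 16 * KK * (‖tD a b p.1 x‖⁻¹ / s) := mul_le_mul_of_nonneg_left h7 (by positivity)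
        _ = 16 * KK / s * ‖tD a b p.1 x‖⁻¹ := by ring
  have hinj : Set.InjOn (fun p : (_ : ℕ) × ℂ => p.1) (F1 : Set ((_ : ℕ) × ℂ)) := by
    rintro ⟨n, y⟩ hp ⟨n', y'⟩ hp' hnn
    simp only at hnn
    subst hnn
    obtain ⟨h1, u, hu, hux⟩ := Finset.mem_filter.1 (Finset.mem_coe.1 hp)
    obtain ⟨h1', u', hu', hux'⟩ := Finset.mem_filter.1 (Finset.mem_coe.1 hp')
    have h2 := br_uni h (Finset.mem_sigma.1 h1).2 (Finset.mem_sigma.1 h1').2 (hsub hu) (hsub hu')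
      (hux.trans hux'.symm)
    have h3 : y = y' := h2.1
    rw [h3]
  have hclose : ∑ p ∈ F1, ‖Rs a b p.1 p.2‖ / ‖x - p.2‖ ≤ 1024 * KK / ρ * (‖x - c‖ / s) := by
    calc ∑ p ∈ F1, ‖Rs a b p.1 p.2‖ / ‖x - p.2‖
        ≤ ∑ p ∈ F1, 16 * KK / s * ‖tD a b p.1 x‖⁻¹ := Finset.sum_le_sum fun p hp => (hpt p hp).2
      _ = ∑ n ∈ F1.image (fun p => p.1), 16 * KK / s * ‖tD a b n x‖⁻¹ :=
          (Finset.sum_image (f := fun n => 16 * KK / s * ‖tD a b n x‖⁻¹) hinj).symm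
      _ ≤ ∑ n ∈ (Finset.Icc 1 K).filter (fun n => ‖(gg a b)^[n] x - c‖ < ρ / 64),
            16 * KK / s * ‖tD a b n x‖⁻¹ := by
          refine Finset.sum_le_sum_of_subset_of_nonneg ?_ fun n _ _ => by positivity
          intro n hn
          obtain ⟨p, hp, rfl⟩ := Finset.mem_image.1 hn
          exact (hpt p hp).1
      _ = 16 * KK / s * ∑ n ∈ (Finset.Icc 1 K).filter (fun n => ‖(gg a b)^[n] x - c‖ < ρ / 64),
            ‖tD a b n x‖⁻¹ := (Finset.mul_sum _ _ _).symm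
      _ ≤ 16 * KK / s * (64 * ‖x - c‖ / ρ) :=
          mul_le_mul_of_nonneg_left (clsum h K x hb) (by positivity)
      _ = 1024 * KK / ρ * (‖x - c‖ / s) := by ring
  have hq : 0 ≤ ‖x - c‖ / s := by positivity
  calc _ ≤ 1024 * KK / ρ * (‖x - c‖ / s) + C := add_le_add hclose hfar
    _ ≤ max C (1024 * KK / ρ) * (‖x - c‖ / s) + max C (1024 * KK / ρ) :=
        add_le_add (mul_le_mul_of_nonneg_right (le_max_right _ _) hq) (le_max_left _ _)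
    _ = max C (1024 * KK / ρ) * (1 + ‖x - c‖ / s) := by ring

theorem totR (h : CS d a b c ρ R0 A W) : ∃ C : ℝ, 0 ≤ C ∧ ∀ K : ℕ,
    ∑ n ∈ Finset.range K, ∑ y ∈ Y a b c n, ‖Rs a b n y‖ ≤ C := by
  classical
  obtain ⟨C, hC0, hC⟩ := far_all h
  refine ⟨C, hC0, fun K => ?_⟩
  set F : Finset ((_ : ℕ) × ℂ) := (Finset.range K).sigma (Y a b c) with hF
  have e0 : ∑ n ∈ Finset.range K, ∑ y ∈ Y a b c n, ‖Rs a b n y‖ = ∑ p ∈ F, ‖Rs a b p.1 p.2‖ := by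
    rw [hF, Finset.sum_sigma]
  have hmem : ∀ p ∈ F, p.2 ∈ Y a b c p.1 := fun p hp => (Finset.mem_sigma.1 hp).2
  have h1 := (hC (F.subtype fun p => p.2 ∈ Y a b c p.1)).1
  rw [Finset.sum_subtype_of_mem (fun p : (_ : ℕ) × ℂ => ‖Rs a b p.1 p.2‖) hmem] at h1
  rw [e0]
  exact h1

end Pool.Agent.H57.CP
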